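import Mathlib

/-! A Brin-Squier type lemma for actions of a free group on the line. -/

set_option autoImplicit false
open Set Filter Topology
open scoped commutatorElement

namespace Pool.Agent.H610Z.C2

abbrev F := FreeGroup (Fin 2)

theorem exists_zpow_of_commute {u v : F} (h : Commute u v) :
    ∃ z : F, ∃ i j : ℤ, u = z ^ i ∧ v = z ^ j := by
  let H : Subgroup F := Subgroup.closure {u, v}
  have hcomm : ∀ x y : H, x * y = y * x := by
    have : IsMulCommutative H := Subgroup.isMulCommutative_closure (by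
      intro x hx y hy
      rcases hx with rfl | rfl <;> rcases hy with rfl | rfl
      · rfl
      · exact h
      · exact h.symm
      · rfl)
    exact fun x y => this.is_comm.comm x y
  have hsub : Subsingleton (IsFreeGroup.Generators H) := by
    by_contra hn
    rw [not_subsingleton_iff_nontrivial] at hn
    obtain ⟨a, b, hab⟩ := hn
    classical
    let φ : H →* Equiv.Perm (Fin 3) :=
      IsFreeGroup.lift fun c => if c = a then Equiv.swap 0 1 else Equiv.swap 1 2
    have := congrArg φ (hcomm (IsFreeGroup.of a) (IsFreeGroup.of b))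
    simp only [map_mul, φ, IsFreeGroup.lift_of, if_true, if_neg hab.symm] at this
    revert this
    decide
  have hcyc : IsCyclic (FreeGroup (IsFreeGroup.Generators H)) := by
    rcases isEmpty_or_nonempty (IsFreeGroup.Generators H) with h0 | ⟨⟨a⟩⟩
    · exact isCyclic_of_subsingleton
    · have : Unique (IsFreeGroup.Generators H) := ⟨⟨a⟩, fun b => Subsingleton.elim _ _⟩
      infer_instance
  have hc : IsCyclic H := isCyclic_of_surjective (IsFreeGroup.mulEquiv H)
    (IsFreeGroup.mulEquiv H).surjective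
  obtain ⟨z, hz⟩ := hc.exists_generator
  obtain ⟨i, hi⟩ := hz ⟨u, Subgroup.subset_closure (by simp)⟩
  obtain ⟨j, hj⟩ := hz ⟨v, Subgroup.subset_closure (by simp)⟩
  refine ⟨z, i, j, ?_, ?_⟩
  · have := congrArg Subtype.val hi; simpa using this.symm
  · have := congrArg Subtype.val hj; simpa using this.symm

set_option maxRecDepth 100000 in
theorem derived_two_ne_bot : derivedSeries F 2 ≠ ⊥ := by
  intro h
  let φ : F →* Equiv.Perm (Fin 4) :=
    FreeGroup.lift fun i => if i = 0 then Equiv.swap 0 1 else finRotate 4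
  have h1 : ⁅⁅FreeGroup.of (0 : Fin 2), FreeGroup.of (1 : Fin 2)⁆,
      ⁅FreeGroup.of (0 : Fin 2), (FreeGroup.of (1 : Fin 2))⁻¹⁆⁆ ∈ derivedSeries F 2 :=
    Subgroup.commutator_mem_commutator
      (Subgroup.commutator_mem_commutator (Subgroup.mem_top _) (Subgroup.mem_top _))
      (Subgroup.commutator_mem_commutator (Subgroup.mem_top _) (Subgroup.mem_top _))
  rw [h, Subgroup.mem_bot] at h1
  have := congrArg φ h1
  simp only [commutatorElement_def, map_mul, map_inv, map_one, φ, FreeGroup.lift_apply_of] at this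
  revert this
  decide

theorem continuous_of_strictMono {h : Equiv.Perm ℝ} (hm : StrictMono h) : Continuous h :=
  (hm.orderIsoOfSurjective h h.surjective).continuous

theorem strictMono_inv {h : Equiv.Perm ℝ} (hm : StrictMono h) :
    StrictMono (h⁻¹ : Equiv.Perm ℝ) := by
  intro x y hxy
  rw [← hm.lt_iff_lt]
  simpa using hxy

theorem fix_of_zpow_fix {h : Equiv.Perm ℝ} (hm : StrictMono h) {i : ℤ} (hi : i ≠ 0) {x : ℝ}
    (hx : (h ^ i) x = x) : h x = x := by
  have key : ∀ n : ℕ, 0 < n → (h ^ n) x = x → h x = x := by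
    intro n hn hx
    rw [Equiv.Perm.coe_pow] at hx
    rcases lt_trichotomy (h x) x with h1 | h1 | h1
    · have := hm.strictAnti_iterate_of_map_lt h1 hn
      simp only [Function.iterate_zero, id] at this
      exact absurd hx this.ne
    · exact h1
    · have := hm.strictMono_iterate_of_lt_map h1 hn
      simp only [Function.iterate_zero, id] at this
      exact absurd hx this.ne'
  rcases Int.natAbs_eq i with h1 | h1
  · refine key i.natAbs (Int.natAbs_pos.2 hi) ?_
    rw [← zpow_natCast, ← h1]; exact hx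
  · refine key i.natAbs (Int.natAbs_pos.2 hi) ?_
    rw [h1, zpow_neg, zpow_natCast, Equiv.Perm.inv_eq_iff_eq] at hx
    exact hx.symm

theorem moved_interval {h : ℝ → ℝ} (hm : StrictMono h) {y : ℝ} (hy : h y ≠ y) :
    ∃ u v : ℝ, u < v ∧ ∀ z ∈ Ioo u v, h z ≠ z := by
  rcases lt_or_gt_of_ne hy with h1 | h1
  · exact ⟨h y, y, h1, fun z hz => ((hm hz.2).trans hz.1).ne⟩
  · exact ⟨y, h y, h1, fun z hz => (hz.2.trans (hm hz.1)).ne'⟩

theorem eq_of_finite_moved {h : ℝ → ℝ} (hm : StrictMono h) {S : Set ℝ} (hS : S.Finite)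
    (hfix : ∀ y, y ∉ S → h y = y) (y : ℝ) : h y = y := by
  by_contra hy
  obtain ⟨u, v, huv, hz⟩ := moved_interval hm hy
  refine Ioo_infinite huv (hS.subset fun z hz' => ?_)
  by_contra hn
  exact hz z hz' (hfix z hn)

theorem eq_of_rat_fixed {h : ℝ → ℝ} (hm : StrictMono h) (hfix : ∀ r : ℚ, h r = r) (y : ℝ) :
    h y = y := by
  by_contra hy
  obtain ⟨u, v, huv, hz⟩ := moved_interval hm hy
  obtain ⟨r, hr⟩ := exists_rat_btwn huv
  exact hz r hr (hfix r)

theorem brin_squier (φ : F →* Equiv.Perm ℝ) (mono : ∀ w, StrictMono (φ w))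
    (fin : ∀ w, ∃ E : Set ℝ, E.Finite ∧ ∀ x, x ∉ E → φ w x = x → ∀ᶠ y in 𝓝 x, φ w y = y)
    (germ : ∀ w ∈ derivedSeries F 2, ∀ p, (∀ k, φ k p = p) → ∀ᶠ y in 𝓝 p, φ w y = y)
    (top : ∀ w ∈ derivedSeries F 2, ∀ᶠ y in atTop, φ w y = y)
    (bot : ∀ w ∈ derivedSeries F 2, ∀ᶠ y in atBot, φ w y = y)
    (N : Subgroup F) [N.Normal] (hN : N ≤ derivedSeries F 2) (hN0 : N ≠ ⊥) :
    N ⊓ φ.ker ≠ ⊥ := by
  classical
  obtain ⟨E0, hE0, h0⟩ := fin (FreeGroup.of 0)
  obtain ⟨E1, hE1, h1⟩ := fin (FreeGroup.of 1)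
  let Z : Set ℝ := {p | ∀ k, φ k p = p}
  have hZ : ∀ p, φ (FreeGroup.of 0) p = p → φ (FreeGroup.of 1) p = p → p ∈ Z := by
    intro p a0 a1 k
    induction k using FreeGroup.induction_on with
    | C1 => simp
    | of i => fin_cases i <;> assumption
    | inv_of i ih => rw [map_inv, Equiv.Perm.inv_eq_iff_eq]; exact ih.symm
    | mul x y hx hy => rw [map_mul, Equiv.Perm.mul_apply, hy, hx]
  have hZc : IsClosed Z := by
    have : Z = ⋂ k, {p | φ k p = p} := by ext p; simp [Z]
    rw [this]
    exact isClosed_iInter fun k => isClosed_eq (continuous_of_strictMono (mono k)) continuous_id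
  let B : Finset ℝ := (hE0.union hE1).toFinset.filter (· ∈ Z)
  have hBZ : ∀ e ∈ B, e ∈ Z := fun e he => (Finset.mem_filter.1 he).2
  have hZo : ∀ p ∈ Z, p ∉ B → ∀ᶠ y in 𝓝 p, y ∈ Z := by
    intro p hp hpB
    have hn : p ∉ E0 ∪ E1 := fun h => hpB (Finset.mem_filter.2 ⟨by simpa using h, hp⟩)
    filter_upwards [h0 p (fun h => hn (Or.inl h)) (hp _), h1 p (fun h => hn (Or.inr h)) (hp _)]
      with y a0 a1 using hZ y a0 a1
  let r : ℝ → ℕ := fun x => (B.filter (· < x)).card
  have hr : ∀ k x, r (φ k x) = r x := by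
    intro k x
    simp only [r]
    congr 1
    refine Finset.filter_congr fun e he => ?_
    rw [← (mono k).lt_iff_lt (a := e) (b := x), hBZ e he k]
  let S : F → Finset ℕ := fun w => (Finset.range (B.card + 1)).filter
    fun n => ∃ x, φ w x ≠ x ∧ r x = n
  have hS : ∀ w x, φ w x ≠ x → r x ∈ S w := fun w x hx =>
    Finset.mem_filter.2 ⟨Finset.mem_range.2 (Nat.lt_succ_of_le (Finset.card_filter_le _ _)),
      x, hx, rfl⟩
  have step : ∀ w ∈ N, w ≠ 1 → (∃ x, φ w x ≠ x) → ∃ w' ∈ N, w' ≠ 1 ∧ (S w').card < (S w).card := by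
    rintro w hw hw1 ⟨x0, hx0⟩
    let M : Set ℝ := {x | φ w x ≠ x ∧ r x = r x0}
    have hMne : M.Nonempty := ⟨x0, hx0, rfl⟩
    have hMa : BddAbove M := by
      obtain ⟨b, hb⟩ := eventually_atTop.1 (top w (hN hw))
      exact ⟨b, fun x hx => by by_contra h; exact hx.1 (hb x (not_le.1 h).le)⟩
    have hMb : BddBelow M := by
      obtain ⟨b, hb⟩ := eventually_atBot.1 (bot w (hN hw))
      exact ⟨b, fun x hx => by by_contra h; exact hx.1 (hb x (not_le.1 h).le)⟩
    have hcl : ∀ p ∈ closure M, p ∉ Z := by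
      intro p hp hpZ
      have := germ w (hN hw) p hpZ
      obtain ⟨y, hy1, hy2⟩ := mem_closure_iff_nhds.1 hp _ this
      exact hy2.1 hy1
    have hlo := hcl _ (csInf_mem_closure hMne hMb)
    have hhi := hcl _ (csSup_mem_closure hMne hMa)
    have hk : ∃ k, sSup M < φ k (sInf M) := by
      by_contra hn
      push Not at hn
      let O : Set ℝ := range fun k => φ k (sInf M)
      have hO : BddAbove O := ⟨sSup M, by rintro _ ⟨k, rfl⟩; exact hn k⟩
      have hOne : O.Nonempty := range_nonempty _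
      have hle : ∀ k, sSup O ≤ φ k (sSup O) := by
        intro k
        refine csSup_le hOne ?_
        rintro _ ⟨l, rfl⟩
        have : φ l (sInf M) = φ k (φ (k⁻¹ * l) (sInf M)) := by
          rw [← Equiv.Perm.mul_apply, ← map_mul]; simp
        simp only
        rw [this]
        exact (mono k).monotone (le_csSup hO ⟨_, rfl⟩)
      have hsZ : sSup O ∈ Z := by
        intro k
        refine le_antisymm ?_ (hle k)
        have := (mono k).monotone (hle k⁻¹)
        rwa [← Equiv.Perm.mul_apply, ← map_mul, mul_inv_cancel, map_one, Equiv.Perm.one_apply]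
          at this
      have a1 : sInf M < sSup O := by
        refine lt_of_le_of_ne (le_csSup hO ⟨1, by simp⟩) fun h => hlo (h ▸ hsZ)
      have a2 : sSup O < sSup M := by
        refine lt_of_le_of_ne (csSup_le hOne (by rintro _ ⟨k, rfl⟩; exact hn k))
          fun h => hhi (h ▸ hsZ)
      obtain ⟨x1, hx1, b1⟩ := exists_lt_of_csInf_lt hMne a1
      obtain ⟨x2, hx2, b2⟩ := exists_lt_of_lt_csSup hMne a2
      have hC : IsCompact (Z ∩ Icc x1 (sSup O)) := isCompact_Icc.inter_left hZc
      obtain ⟨s, hs, hsm⟩ := hC.exists_isLeast ⟨sSup O, hsZ, b1.le, le_rfl⟩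
      have c1 : x1 < s := lt_of_le_of_ne hs.2.1 fun h => hx1.1 (h ▸ hs.1 w)
      have c2 : s ∉ B := by
        intro hsB
        have : r x1 < r x2 := by
          refine Finset.card_lt_card ⟨fun e he => ?_, fun hsub => ?_⟩
          · rw [Finset.mem_filter] at he ⊢
            exact ⟨he.1, by linarith [he.2]⟩
          · have := hsub (Finset.mem_filter.2 ⟨hsB, hs.2.2.trans_lt b2⟩)
            exact absurd (Finset.mem_filter.1 this).2 (not_lt.2 c1.le)
        rw [hx1.2, hx2.2] at this
        exact lt_irrefl _ this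
      have c3 : ∀ᶠ y in 𝓝[<] s, y ∈ Z ∧ x1 < y :=
        ((hZo s hs.1 c2).and (lt_mem_nhds c1)).filter_mono nhdsWithin_le_nhds
      obtain ⟨y, hy1, hy2⟩ := (c3.and self_mem_nhdsWithin).exists
      have hy3 : y < s := hy2
      exact absurd (hsm ⟨hy1.1, hy1.2.le, hy3.le.trans hs.2.2⟩) (not_le.2 hy3)
    obtain ⟨k, hk⟩ := hk
    let v : F := k * w * k⁻¹
    have hv : v ∈ N := Subgroup.Normal.conj_mem inferInstance w hw k
    have hvx : ∀ x, φ v x ≠ x → φ w (φ k⁻¹ x) ≠ φ k⁻¹ x := by
      intro x hx h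
      apply hx
      simp only [v, map_mul, Equiv.Perm.mul_apply]
      rw [h]; simp
    have hdisj : ∀ x, r x = r x0 → φ w x = x ∨ φ v x = x := by
      intro x hx
      by_contra hn
      push Not at hn
      have a1 : x ≤ sSup M := le_csSup hMa ⟨hn.1, hx⟩
      have a2 : sInf M ≤ φ k⁻¹ x := csInf_le hMb ⟨hvx x hn.2, by rw [hr, hx]⟩
      have a3 := (mono k).monotone a2
      rw [← Equiv.Perm.mul_apply, ← map_mul, mul_inv_cancel, map_one, Equiv.Perm.one_apply] at a3
      linarith
    have hcomm : ∀ x, r x = r x0 → φ w (φ v x) = φ v (φ w x) := by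
      intro x hx
      by_cases a1 : φ w x = x
      · rw [a1]
        by_cases a2 : φ v x = x
        · rw [a2, a1]
        · have a3 : φ v (φ v x) ≠ φ v x := fun h => a2 ((φ v).injective h)
          exact (hdisj (φ v x) (by rw [hr, hx])).resolve_right a3
      · have a2 : φ v x = x := (hdisj x hx).resolve_left a1
        have a3 : φ w (φ w x) ≠ φ w x := fun h => a1 ((φ w).injective h)
        rw [a2, (hdisj (φ w x) (by rw [hr, hx])).resolve_left a3]
    refine ⟨⁅w, v⁆, ?_, ?_, ?_⟩
    · rw [commutatorElement_def]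
      exact N.mul_mem (N.mul_mem (N.mul_mem hw hv) (N.inv_mem hw)) (N.inv_mem hv)
    · intro h
      obtain ⟨z, i, j, hi, hj⟩ := exists_zpow_of_commute (commutatorElement_eq_one_iff_commute.1 h)
      have hj0 : j ≠ 0 := by
        rintro rfl
        rw [zpow_zero] at hj
        apply hw1
        have : w = k⁻¹ * v * k := by simp [v, mul_assoc]
        rw [this, hj]; simp
      have a1 : φ v x0 = x0 := (hdisj x0 rfl).resolve_left hx0
      rw [hj, map_zpow] at a1
      have a2 := fix_of_zpow_fix (mono z) hj0 a1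
      apply hx0
      rw [hi, map_zpow]
      exact Equiv.Perm.zpow_apply_eq_self_of_apply_eq_self a2 i
    · refine Finset.card_lt_card ⟨fun n hn => ?_, fun hsub => ?_⟩
      · obtain ⟨_, x, hx, rfl⟩ := Finset.mem_filter.1 hn
        by_cases a1 : φ w x = x
        · by_cases a2 : φ v x = x
          · exfalso
            apply hx
            have b1 : (φ w)⁻¹ x = x := by rw [Equiv.Perm.inv_eq_iff_eq]; exact a1.symm
            have b2 : (φ v)⁻¹ x = x := by rw [Equiv.Perm.inv_eq_iff_eq]; exact a2.symm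
            simp only [commutatorElement_def, map_mul, map_inv, Equiv.Perm.mul_apply, b1, b2, a1, a2]
          · rw [← hr k⁻¹ x]; exact hS w _ (hvx x a2)
        · exact hS w x a1
      · obtain ⟨_, x, hx, hx2⟩ := Finset.mem_filter.1 (hsub (hS w x0 hx0))
        apply hx
        simp only [commutatorElement_def, map_mul, Equiv.Perm.mul_apply]
        rw [hcomm _ (by rw [hr, hr, hx2])]
        simp
  have main : ∀ n, ∀ w ∈ N, w ≠ 1 → (S w).card = n → ∃ w' ∈ N, w' ≠ 1 ∧ φ w' = 1 := by
    intro n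
    induction n using Nat.strong_induction_on with
    | _ n ih =>
      intro w hw hw1 hn
      by_cases hx : ∃ x, φ w x ≠ x
      · obtain ⟨w', a1, a2, a3⟩ := step w hw hw1 hx
        exact ih _ (hn ▸ a3) w' a1 a2 rfl
      · push Not at hx
        exact ⟨w, hw, hw1, Equiv.ext hx⟩
  obtain ⟨⟨w, hw⟩, hw1⟩ := (Subgroup.ne_bot_iff_exists_ne_one).1 hN0
  obtain ⟨w', a1, a2, a3⟩ := main _ w hw (fun h => hw1 (Subtype.ext h)) rfl
  intro h
  have : w' ∈ N ⊓ φ.ker := ⟨a1, a3⟩
  rw [h, Subgroup.mem_bot] at this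
  exact a2 this

end Pool.Agent.H610Z.C2
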