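import Pool.Agent.H610Z.C2.PW

/-! A smooth model of the Thompson group acting on the line. -/

set_option autoImplicit false
open Set Filter Topology
open scoped commutatorElement

namespace Pool.Agent.H610Z.C2

theorem glue_contDiff (p : ℝ) : ∀ (n : ℕ) (u v : ℝ → ℝ), ContDiff ℝ n u → ContDiff ℝ n v →
    (∀ i ≤ n, iteratedDeriv i u p = iteratedDeriv i v p) →
    ContDiff ℝ n (fun x => if x ≤ p then u x else v x) := by
  intro n
  induction n with
  | zero =>
    intro u v hu hv h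
    simp only [Nat.cast_zero, contDiff_zero] at hu hv ⊢
    refine Continuous.if_le hu hv continuous_id continuous_const ?_
    rintro x rfl
    simpa using h 0 le_rfl
  | succ n ih =>
    intro u v hu hv h
    rw [Nat.cast_succ, contDiff_succ_iff_deriv] at hu hv ⊢
    have h0 : u p = v p := by simpa using h 0 (Nat.zero_le _)
    have h1 : deriv u p = deriv v p := by simpa using h 1 (by omega)
    have hd : ∀ x, HasDerivAt (fun x => if x ≤ p then u x else v x)
        (if x ≤ p then deriv u x else deriv v x) x := by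
      intro x
      rcases lt_trichotomy x p with hx | rfl | hx
      · rw [if_pos hx.le]
        refine (hu.1 x).hasDerivAt.congr_of_eventuallyEq ?_
        filter_upwards [Iio_mem_nhds hx] with y hy using if_pos (le_of_lt hy)
      · rw [if_pos le_rfl, ← hasDerivWithinAt_univ, ← Iic_union_Ici (a := x)]
        refine HasDerivWithinAt.union ?_ ?_
        · exact (hu.1 x).hasDerivAt.hasDerivWithinAt.congr (fun y hy => if_pos hy) (if_pos le_rfl)
        · rw [h1]
          refine (hv.1 x).hasDerivAt.hasDerivWithinAt.congr (fun y hy => ?_) (by simp [h0])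
          split_ifs with h2
          · rw [le_antisymm h2 hy, h0]
          · rfl
      · rw [if_neg (not_le.2 hx)]
        refine (hv.1 x).hasDerivAt.congr_of_eventuallyEq ?_
        filter_upwards [Ioi_mem_nhds hx] with y hy using if_neg (not_le.2 hy)
    refine ⟨fun x => (hd x).differentiableAt, by simp, ?_⟩
    have : deriv (fun x => if x ≤ p then u x else v x) =
        fun x => if x ≤ p then deriv u x else deriv v x := funext fun x => (hd x).deriv
    rw [this]
    refine ih _ _ hu.2.2 hv.2.2 fun i hi => ?_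
    rw [← iteratedDeriv_succ', ← iteratedDeriv_succ']
    exact h _ (by omega)

noncomputable def f0 (x : ℝ) : ℝ := 2 * x - Real.sin (2 * Real.pi * x) / (2 * Real.pi)

theorem f0_expand {x y : ℝ} (h : x < y) : y - x < f0 y - f0 x := by
  unfold f0
  have hπ := Real.pi_pos
  have h1 := Real.sin_sub_sin (2 * Real.pi * y) (2 * Real.pi * x)
  have h2 : Real.sin ((2 * Real.pi * y - 2 * Real.pi * x) / 2) *
      Real.cos ((2 * Real.pi * y + 2 * Real.pi * x) / 2) < Real.pi * (y - x) := by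
    have e : (2 * Real.pi * y - 2 * Real.pi * x) / 2 = Real.pi * (y - x) := by ring
    rw [e]
    have hp : 0 < Real.pi * (y - x) := mul_pos hπ (by linarith)
    have a := Real.abs_sin_lt_abs hp.ne'
    rw [abs_of_pos hp] at a
    refine lt_of_le_of_lt (le_abs_self _) (lt_of_le_of_lt ?_ a)
    rw [abs_mul]
    exact mul_le_of_le_one_right (abs_nonneg _) (Real.abs_cos_le_one _)
  have h3 : (Real.sin (2 * Real.pi * y) - Real.sin (2 * Real.pi * x)) / (2 * Real.pi) < y - x := by
    rw [div_lt_iff₀ (by positivity), h1]; nlinarith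
  rw [sub_div] at h3
  linarith

theorem f0_add_one (x : ℝ) : f0 (x + 1) = f0 x + 2 := by
  unfold f0
  rw [show 2 * Real.pi * (x + 1) = 2 * Real.pi * x + 2 * Real.pi by ring, Real.sin_add_two_pi]
  ring

theorem f0_zero : f0 0 = 0 := by simp [f0]

theorem f0_one : f0 1 = 2 := by simpa [f0_zero] using f0_add_one 0

theorem f0_hasDerivAt (x : ℝ) : HasDerivAt f0 (2 - Real.cos (2 * Real.pi * x)) x := by
  have hπ := Real.pi_pos
  have h1 : HasDerivAt (fun x : ℝ => 2 * Real.pi * x) (2 * Real.pi * 1) x :=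
    (hasDerivAt_id x).const_mul _
  have h2 := ((hasDerivAt_id x).const_mul 2).sub (h1.sin.div_const (2 * Real.pi))
  have e : 2 - Real.cos (2 * Real.pi * x) =
      2 * 1 - Real.cos (2 * Real.pi * x) * (2 * Real.pi * 1) / (2 * Real.pi) := by
    field_simp
  rw [e]; exact h2

theorem deriv_f0 : deriv f0 = fun x => 2 - Real.cos (2 * Real.pi * x) :=
  funext fun x => (f0_hasDerivAt x).deriv

theorem deriv2_f0 : deriv (deriv f0) = fun x => Real.sin (2 * Real.pi * x) * (2 * Real.pi) := by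
  funext x
  rw [deriv_f0]
  have h1 : HasDerivAt (fun x : ℝ => 2 * Real.pi * x) (2 * Real.pi * 1) x :=
    (hasDerivAt_id x).const_mul _
  have h2 := (h1.cos.const_sub 2).deriv
  rw [h2]; ring

theorem f0_contDiff : ContDiff ℝ 2 f0 := by
  unfold f0
  fun_prop

theorem surj_of_expand {u : ℝ → ℝ} (hc : Continuous u) (h : ∀ x y, x < y → y - x ≤ u y - u x) :
    StrictMono u ∧ Function.Surjective u := by
  refine ⟨fun x y hxy => by have := h x y hxy; linarith, hc.surjective ?_ ?_⟩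
  · refine tendsto_atTop_mono' atTop (f₁ := fun x => x + u 0) ?_
      (tendsto_atTop_add_const_right _ _ tendsto_id)
    filter_upwards [eventually_gt_atTop 0] with x hx
    have := h 0 x hx; linarith
  · refine tendsto_atBot_mono' atBot (f₁ := fun x => x + u 0) ?_
      (tendsto_atBot_add_const_right _ _ tendsto_id)
    filter_upwards [eventually_lt_atBot 0] with x hx
    have := h x 0 hx; linarith

theorem f0_good : StrictMono f0 ∧ Function.Surjective f0 :=
  surj_of_expand f0_contDiff.continuous fun _ _ h => (f0_expand h).le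

noncomputable def fP : Equiv.Perm ℝ := Equiv.ofBijective f0 ⟨f0_good.1.injective, f0_good.2⟩

noncomputable def TP : Equiv.Perm ℝ := Equiv.addRight 1

theorem fP_apply (x : ℝ) : fP x = f0 x := rfl

theorem TP_zpow (m : ℤ) (x : ℝ) : (TP ^ m) x = x + m := by
  induction m using Int.induction_on generalizing x with
  | zero => simp
  | succ i ih =>
    rw [zpow_add_one, Equiv.Perm.mul_apply, ih]
    simp only [TP, Equiv.coe_addRight]; push_cast; ring
  | pred i ih =>
    rw [zpow_sub_one, Equiv.Perm.mul_apply, ih]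
    have : TP⁻¹ x = x - 1 := by rw [Equiv.Perm.inv_eq_iff_eq]; simp [TP]
    rw [this]; push_cast; ring

noncomputable def e0 (x : ℝ) : ℝ := if x ≤ 0 then x else if x ≤ 1 then f0 x else x + 1

theorem e1_contDiff : ContDiff ℝ 2 (fun x : ℝ => if x ≤ 1 then f0 x else x + 1) := by
  refine glue_contDiff 1 2 f0 (fun x => x + 1) f0_contDiff (by fun_prop) fun i hi => ?_
  interval_cases i
  · simp [f0_one]; norm_num
  · simp [deriv_f0]; norm_num
  · rw [iteratedDeriv_succ, iteratedDeriv_one, iteratedDeriv_succ, iteratedDeriv_one, deriv2_f0]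
    simp

theorem e0_contDiff : ContDiff ℝ 2 e0 := by
  refine glue_contDiff 0 2 (fun x => x) _ (by fun_prop) e1_contDiff fun i _ => ?_
  have h : (fun x : ℝ => if x ≤ 1 then f0 x else x + 1) =ᶠ[𝓝 0] f0 := by
    filter_upwards [Iio_mem_nhds (zero_lt_one' ℝ)] with y hy using if_pos (le_of_lt hy)
  rw [h.iteratedDeriv_eq]
  interval_cases i
  · simp [f0_zero]
  · simp [deriv_f0]; norm_num
  · rw [iteratedDeriv_succ, iteratedDeriv_one, iteratedDeriv_succ, iteratedDeriv_one, deriv2_f0]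
    simp

theorem e0_left {x : ℝ} (h : x ≤ 0) : e0 x = x := if_pos h

theorem e0_mid {x : ℝ} (h0 : 0 ≤ x) (h1 : x ≤ 1) : e0 x = f0 x := by
  unfold e0
  split_ifs with h
  · rw [le_antisymm h h0, f0_zero]
  · rfl

theorem e0_right {x : ℝ} (h : 1 ≤ x) : e0 x = x + 1 := by
  unfold e0
  rw [if_neg (by linarith)]
  split_ifs with h1
  · rw [le_antisymm h1 h, f0_one]; norm_num
  · rfl

theorem e0_expand (x y : ℝ) (h : x < y) : y - x ≤ e0 y - e0 x := by
  have key : ∀ z, e0 z - z = f0 (max 0 (min z 1)) - max 0 (min z 1) := by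
    intro z
    rcases le_total z 0 with a | a
    · rw [e0_left a, max_eq_left ((min_le_left _ _).trans a), f0_zero]; simp
    · rcases le_total z 1 with b | b
      · rw [e0_mid a b, min_eq_left b, max_eq_right a]
      · rw [e0_right b, min_eq_right b, max_eq_right zero_le_one, f0_one]; ring
  have h1 : max 0 (min x 1) ≤ max 0 (min y 1) := max_le_max le_rfl (min_le_min h.le le_rfl)
  have h2 := key x
  have h3 := key y
  rcases h1.eq_or_lt with a | a
  · rw [a] at h2; linarith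
  · have := f0_expand a; linarith

theorem e0_good : StrictMono e0 ∧ Function.Surjective e0 :=
  surj_of_expand e0_contDiff.continuous e0_expand

noncomputable def eP : Equiv.Perm ℝ := Equiv.ofBijective e0 ⟨e0_good.1.injective, e0_good.2⟩

theorem eP_apply (x : ℝ) : eP x = e0 x := rfl

/-- Increasing `C²` diffeomorphisms of the line. -/
def Diff2 : Subgroup (Equiv.Perm ℝ) where
  carrier := {g | StrictMono g ∧ ContDiff ℝ 2 g ∧ ContDiff ℝ 2 g.symm}
  one_mem' := ⟨strictMono_id, contDiff_id, contDiff_id⟩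
  mul_mem' := fun {_ _} a b => ⟨a.1.comp b.1, a.2.1.comp b.2.1, b.2.2.comp a.2.2⟩
  inv_mem' := fun {_} a => ⟨strictMono_inv a.1, a.2.2, a.2.1⟩

theorem TP_mem : TP ∈ Diff2 := by
  refine ⟨fun x y h => ?_, ?_, ?_⟩
  · simpa [TP] using h
  · change ContDiff ℝ 2 fun x : ℝ => x + 1
    fun_prop
  · change ContDiff ℝ 2 fun x : ℝ => x + -1
    fun_prop

theorem eP_mem : eP ∈ Diff2 := by
  refine ⟨e0_good.1, e0_contDiff, ?_⟩
  let H : ℝ ≃ₜ ℝ := (e0_good.1.orderIsoOfSurjective e0 e0_good.2).toHomeomorph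
  have hd : Differentiable ℝ e0 := e0_contDiff.differentiable (by norm_num)
  have h1 : ∀ x, 1 ≤ deriv e0 x := by
    intro x
    have hm : Monotone fun x => e0 x - x := monotone_iff_forall_lt.2 fun x y h => by
      have := e0_expand x y h; linarith
    have h2 := hm.deriv_nonneg (x := x)
    have h3 : deriv (fun x => e0 x - x) x = deriv e0 x - 1 :=
      ((hd x).hasDerivAt.sub (hasDerivAt_id x)).deriv
    linarith
  have h2 := H.contDiff_symm_deriv (f' := deriv e0) (fun x => by linarith [h1 x])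
    (fun x => (hd x).hasDerivAt) e0_contDiff
  have h3 : (eP.symm : ℝ → ℝ) = H.symm := by
    funext y
    rw [Equiv.symm_apply_eq]
    exact (H.apply_symm_apply y).symm
  rw [h3]; exact h2

/-! The group generated by the translation and the expanding map. -/

theorem fP_mul_TP (m : ℤ) : fP * TP ^ m = TP ^ (2 * m) * fP := by
  have h1 : fP * TP = TP ^ (2 : ℤ) * fP := by
    ext x
    rw [Equiv.Perm.mul_apply, Equiv.Perm.mul_apply, TP_zpow, fP_apply, fP_apply]
    exact f0_add_one x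
  have h2 : SemiconjBy fP TP (TP ^ (2 : ℤ)) := h1
  have := h2.zpow_right m
  rw [← zpow_mul] at this
  exact this

noncomputable def tau (j : ℕ) (m : ℤ) : Equiv.Perm ℝ := (fP ^ j)⁻¹ * TP ^ m * fP ^ j

theorem tau_succ (j : ℕ) (m : ℤ) : tau (j + 1) (2 * m) = tau j m := by
  unfold tau
  rw [pow_succ', mul_inv_rev, mul_assoc, mul_assoc, ← mul_assoc (TP ^ (2 * m)), ← fP_mul_TP]
  group

theorem tau_add (i j : ℕ) (m : ℤ) : tau (j + i) (2 ^ i * m) = tau j m := by
  induction i with
  | zero => simp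
  | succ i ih => rw [← add_assoc, pow_succ', mul_assoc, tau_succ, ih]

theorem tau_mul (j j' : ℕ) (m m' : ℤ) :
    tau j m * tau j' m' = tau (j + j') (2 ^ j' * m + 2 ^ j * m') := by
  rw [← tau_add j' j m, ← tau_add j j' m', add_comm j' j]
  unfold tau
  rw [zpow_add]; group

/-- The images of the dyadic translations. -/
noncomputable def Tau : Subgroup (Equiv.Perm ℝ) where
  carrier := {g | ∃ j m, g = tau j m}
  one_mem' := ⟨0, 0, by simp [tau]⟩
  mul_mem' := by
    rintro _ _ ⟨j, m, rfl⟩ ⟨j', m', rfl⟩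
    exact ⟨_, _, tau_mul j j' m m'⟩
  inv_mem' := by
    rintro _ ⟨j, m, rfl⟩
    exact ⟨j, -m, by unfold tau; group⟩

theorem Tau_comm {u v : Equiv.Perm ℝ} (hu : u ∈ Tau) (hv : v ∈ Tau) : u * v = v * u := by
  obtain ⟨j, m, rfl⟩ := hu
  obtain ⟨j', m', rfl⟩ := hv
  rw [tau_mul, tau_mul, add_comm j j', add_comm (2 ^ j' * m)]

theorem fP_norm : fP ∈ Subgroup.normalizer (Tau : Set (Equiv.Perm ℝ)) := by
  rw [Subgroup.mem_normalizer_iff]
  intro u
  constructor
  · rintro ⟨j, m, rfl⟩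
    refine ⟨j, 2 * m, ?_⟩
    unfold tau
    have : TP ^ (2 * m) = fP * TP ^ m * fP⁻¹ := by rw [fP_mul_TP]; group
    rw [this]; group
  · rintro ⟨j, m, h⟩
    refine ⟨j + 1, m, ?_⟩
    have : u = fP⁻¹ * tau j m * fP := by rw [← h]; group
    rw [this]; unfold tau; group

theorem conj_Tau (k : ℤ) {u : Equiv.Perm ℝ} (hu : u ∈ Tau) : fP ^ k * u * (fP ^ k)⁻¹ ∈ Tau :=
  (Subgroup.mem_normalizer_iff.1 (Subgroup.zpow_mem _ fP_norm k) u).1 hu

/-- The images of the dyadic affine maps. -/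
noncomputable def Aff : Subgroup (Equiv.Perm ℝ) where
  carrier := {g | ∃ u ∈ Tau, ∃ k : ℤ, g = u * fP ^ k}
  one_mem' := ⟨1, Tau.one_mem, 0, by simp⟩
  mul_mem' := by
    rintro _ _ ⟨u, hu, k, rfl⟩ ⟨v, hv, l, rfl⟩
    exact ⟨u * (fP ^ k * v * (fP ^ k)⁻¹), Tau.mul_mem hu (conj_Tau k hv), k + l, by group⟩
  inv_mem' := by
    rintro _ ⟨u, hu, k, rfl⟩
    exact ⟨fP ^ (-k) * u⁻¹ * (fP ^ (-k))⁻¹, conj_Tau (-k) (Tau.inv_mem hu), -k, by group⟩

theorem Aff_commutator {g h : Equiv.Perm ℝ} (hg : g ∈ Aff) (hh : h ∈ Aff) : ⁅g, h⁆ ∈ Tau := by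
  obtain ⟨u, hu, k, rfl⟩ := hg
  obtain ⟨v, hv, l, rfl⟩ := hh
  have : ⁅u * fP ^ k, v * fP ^ l⁆ =
      u * (fP ^ k * v * (fP ^ k)⁻¹) * (fP ^ l * u⁻¹ * (fP ^ l)⁻¹) * v⁻¹ := by
    rw [commutatorElement_def]; group
  rw [this]
  exact Tau.mul_mem (Tau.mul_mem (Tau.mul_mem hu (conj_Tau k hv)) (conj_Tau l (Tau.inv_mem hu)))
    (Tau.inv_mem hv)

theorem fP_pow_expand (n : ℕ) {x y : ℝ} (h : x < y) :
    y - x < (fP ^ (n + 1)) y - (fP ^ (n + 1)) x := by
  induction n with
  | zero => simpa [fP_apply] using f0_expand h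
  | succ n ih =>
    rw [pow_succ', Equiv.Perm.mul_apply, Equiv.Perm.mul_apply, fP_apply, fP_apply]
    have := f0_expand (x := (fP ^ (n + 1)) x) (y := (fP ^ (n + 1)) y) (by linarith)
    linarith

theorem fP_zpow_unique {k : ℤ} (hk : k ≠ 0) {x y : ℝ} (h : (fP ^ k) x - x = (fP ^ k) y - y) :
    x = y := by
  have key : ∀ n : ℕ, ∀ x y : ℝ, (fP ^ (n + 1)) x - x = (fP ^ (n + 1)) y - y → x = y := by
    intro n x y h
    rcases lt_trichotomy x y with a | a | a
    · have := fP_pow_expand n a; linarith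
    · exact a
    · have := fP_pow_expand n a; linarith
  obtain ⟨n, hn⟩ : ∃ n : ℕ, k.natAbs = n + 1 := ⟨k.natAbs - 1, by omega⟩
  rcases Int.natAbs_eq k with h1 | h1
  · rw [h1, hn, zpow_natCast] at h
    exact key n x y h
  · rw [h1, hn, zpow_neg, zpow_natCast] at h
    have := key n ((fP ^ (n + 1))⁻¹ x) ((fP ^ (n + 1))⁻¹ y) (by
      simp only [Equiv.Perm.coe_inv, Equiv.apply_symm_apply] at h ⊢; linarith)
    exact (fP ^ (n + 1))⁻¹.injective this

theorem model_Aff : Model Aff (id : ℝ → ℝ) where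
  inj := Function.injective_id
  fin := by
    rintro ⟨_, _, ⟨j, m, rfl⟩, k, rfl⟩
    have e : ∀ x, (tau j m * fP ^ k) x = x ↔ (fP ^ k) ((fP ^ j) x) + m = (fP ^ j) x := by
      intro x
      have : tau j m * fP ^ k = (fP ^ j)⁻¹ * (TP ^ m * fP ^ k * fP ^ j) := by unfold tau; group
      rw [this, Equiv.Perm.mul_apply, Equiv.Perm.inv_eq_iff_eq, Equiv.Perm.mul_apply,
        Equiv.Perm.mul_apply, TP_zpow]
    by_cases hk : k = 0
    · by_cases hm : m = 0
      · left
        intro x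
        exact (e x).2 (by simp [hk, hm])
      · right
        refine finite_empty.subset fun x hx => hm ?_
        have := (e x).1 hx
        simpa [hk] using this
    · right
      refine Set.Subsingleton.finite fun x hx y hy => ?_
      have h1 := (e x).1 hx
      have h2 := (e y).1 hy
      exact (fP ^ j).injective (fP_zpow_unique hk (by linarith))
  metab := fun _ ψ _ => derived_two_eq_one ψ (Tau.subgroupOf Aff)
    (fun u v => Aff_commutator (ψ u).2 (ψ v).2)
    (fun _ hu _ hv => Subtype.ext (Tau_comm hu hv))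

/-- The smooth model of the Thompson group lies in this subgroup. -/
noncomputable def WG : Subgroup (Equiv.Perm ℝ) := Diff2 ⊓ PWG Aff (id : ℝ → ℝ)

theorem TP_Aff : TP ∈ Aff := ⟨TP, ⟨0, 1, by simp [tau]⟩, 0, by simp⟩

theorem fP_Aff : fP ∈ Aff := ⟨1, Tau.one_mem, 1, by simp⟩

theorem TP_apply (x : ℝ) : TP x = x + 1 := rfl

theorem TP_WG : TP ∈ WG :=
  ⟨TP_mem, mem_PWG_of_three TP_mem.1 zero_lt_one (⟨TP, TP_Aff⟩ : Aff) ⟨TP, TP_Aff⟩ ⟨TP, TP_Aff⟩ 1 1
    (fun _ _ => rfl) (fun _ _ _ => rfl) (fun _ _ => rfl) (fun _ _ => rfl) (fun _ _ => rfl)⟩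

theorem eP_WG : eP ∈ WG :=
  ⟨eP_mem, mem_PWG_of_three eP_mem.1 zero_lt_one (1 : Aff) ⟨fP, fP_Aff⟩ ⟨TP, TP_Aff⟩ 0 1
    (fun _ h => (e0_left h).symm) (fun _ h h' => (e0_mid h h').symm) (fun _ h => (e0_right h).symm)
    (fun _ h => by rw [add_zero]; exact e0_left h) (fun _ h => e0_right h)⟩

theorem exists_expand (A : ℤ) (k : ℕ) : ∃ u ∈ WG, (∀ x : ℝ, x ≤ A → u x = x) ∧
    ∀ x : ℝ, A + 1 ≤ x → u x = x + k := by
  let e := TP ^ A * eP * TP ^ (-A)
  have he : e ∈ WG := WG.mul_mem (WG.mul_mem (WG.zpow_mem TP_WG _) eP_WG) (WG.zpow_mem TP_WG _)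
  have h1 : ∀ x : ℝ, x ≤ A → e x = x := by
    intro x hx
    simp only [e, Equiv.Perm.mul_apply, TP_zpow, eP_apply]
    rw [e0_left (by push_cast; linarith)]; push_cast; ring
  have h2 : ∀ x : ℝ, A + 1 ≤ x → e x = x + 1 := by
    intro x hx
    simp only [e, Equiv.Perm.mul_apply, TP_zpow, eP_apply]
    rw [e0_right (by push_cast; linarith)]; push_cast; ring
  refine ⟨e ^ k, WG.pow_mem he k, fun x hx => Equiv.Perm.pow_apply_eq_self_of_apply_eq_self
    (h1 x hx) k, fun x hx => ?_⟩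
  induction k with
  | zero => simp
  | succ k ih =>
    rw [pow_succ', Equiv.Perm.mul_apply, ih, h2 _ (by linarith [Nat.cast_nonneg (α := ℝ) k])]
    push_cast; ring

theorem exists_step (A y z : ℤ) (hy : A < y) (hz : A < z) : ∃ u ∈ WG, (∀ x : ℝ, x ≤ A → u x = x) ∧
    ∀ x : ℝ, y ≤ x → u x = x + (z - y) := by
  obtain ⟨u, hu, a1, a2⟩ := exists_expand A (y - A - 1).toNat
  obtain ⟨v, hv, b1, b2⟩ := exists_expand A (z - A - 1).toNat
  have c1 : (((y - A - 1).toNat : ℕ) : ℝ) = y - A - 1 := by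
    have : (((y - A - 1).toNat : ℕ) : ℤ) = y - A - 1 := Int.toNat_of_nonneg (by omega)
    exact_mod_cast this
  have c2 : (((z - A - 1).toNat : ℕ) : ℝ) = z - A - 1 := by
    have : (((z - A - 1).toNat : ℕ) : ℤ) = z - A - 1 := Int.toNat_of_nonneg (by omega)
    exact_mod_cast this
  refine ⟨v * u⁻¹, WG.mul_mem hv (WG.inv_mem hu), fun x hx => ?_, fun x hx => ?_⟩
  · have : u⁻¹ x = x := by rw [Equiv.Perm.inv_eq_iff_eq]; exact (a1 x hx).symm
    rw [Equiv.Perm.mul_apply, this, b1 x hx]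
  · have : u⁻¹ x = x - (y - A - 1) := by
      rw [Equiv.Perm.inv_eq_iff_eq, a2 _ (by linarith), c1]; ring
    rw [Equiv.Perm.mul_apply, this, b2 _ (by linarith), c2]; ring

theorem exists_interp (A : ℤ) (s : Finset ℤ) (g : ℤ → ℤ) (hs : ∀ x ∈ s, A < x ∧ A < g x)
    (hg : StrictMonoOn g s) : ∃ u ∈ WG, (∀ x : ℝ, x ≤ A → u x = x) ∧ (∀ x ∈ s, u x = g x) ∧
      ∃ B c : ℤ, (∀ x : ℝ, B ≤ x → u x = x + c) ∧
        ((s = ∅ ∧ B = A ∧ c = 0) ∨ (B ∈ s ∧ (∀ x ∈ s, x ≤ B) ∧ B + c = g B)) := by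
  induction s using Finset.induction_on_max with
  | empty => exact ⟨1, WG.one_mem, fun _ _ => rfl, by simp, A, 0, by simp, Or.inl ⟨rfl, rfl, rfl⟩⟩
  | insert a s ha ih =>
    obtain ⟨u, hu, u1, u2, B, c, u3, u4⟩ := ih (fun x hx => hs x (Finset.mem_insert_of_mem hx))
      (hg.mono (by simp))
    have ha' := hs a (Finset.mem_insert_self _ _)
    have h1 : B < a ∧ B + c < g a ∧ A ≤ B + c ∧ ∀ x ∈ s, g x ≤ B + c := by
      rcases u4 with ⟨h1, h2, h3⟩ | ⟨h1, h2, h3⟩
      · subst h1 h2 h3; simp; omega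
      · refine ⟨ha B h1, ?_, ?_, fun x hx => ?_⟩
        · rw [h3]; exact hg (by simp [h1]) (by simp) (ha B h1)
        · rw [h3]; exact (hs B (Finset.mem_insert_of_mem h1)).2.le
        · rw [h3]; exact hg.monotoneOn (by simp [hx]) (by simp [h1]) (h2 x hx)
    obtain ⟨v, hv, v1, v2⟩ := exists_step (B + c) (a + c) (g a) (by omega) h1.2.1
    have hBa : (B : ℝ) ≤ a := by exact_mod_cast h1.1.le
    refine ⟨v * u, WG.mul_mem hv hu, fun x hx => ?_, fun x hx => ?_, a, g a - a, fun x hx => ?_,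
      Or.inr ⟨by simp, fun x hx => ?_, by ring⟩⟩
    · have : (A : ℝ) ≤ (B + c : ℤ) := by exact_mod_cast h1.2.2.1
      rw [Equiv.Perm.mul_apply, u1 x hx, v1 x (hx.trans this)]
    · rcases Finset.mem_insert.1 hx with rfl | hx
      · rw [Equiv.Perm.mul_apply, u3 _ hBa, v2 _ (by push_cast; linarith)]; push_cast; ring
      · rw [Equiv.Perm.mul_apply, u2 x hx, v1 _ (by exact_mod_cast h1.2.2.2 x hx)]
    · rw [Equiv.Perm.mul_apply, u3 _ (hBa.trans hx), v2 _ (by push_cast; linarith)]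
      push_cast; ring
    · rcases Finset.mem_insert.1 hx with rfl | hx
      · exact le_rfl
      · exact (ha x hx).le

/-- Interpolation with compact support. -/
theorem exists_interp_supp (A B : ℤ) (hAB : A < B) (s : Finset ℤ) (g : ℤ → ℤ)
    (hs : ∀ x ∈ s, A < x ∧ A < g x ∧ x < B ∧ g x < B) (hg : StrictMonoOn g s) :
    ∃ u ∈ WG, (∀ x : ℝ, x ≤ A → u x = x) ∧ (∀ x : ℝ, B ≤ x → u x = x) ∧ ∀ x ∈ s, u x = g x := by
  classical
  obtain ⟨u, hu, u1, u2, B', c, u3, u4⟩ := exists_interp A (insert B s)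
    (fun x => if x = B then B else g x) (by
      intro x hx
      rcases Finset.mem_insert.1 hx with rfl | hx
      · simp [hAB]
      · have := hs x hx
        rw [if_neg this.2.2.1.ne]; exact ⟨this.1, this.2.1⟩) (by
      intro x hx y hy hxy
      simp only [Finset.coe_insert, mem_insert_iff, Finset.mem_coe] at hx hy
      rcases hx with rfl | hx
      · rcases hy with rfl | hy
        · exact absurd hxy (lt_irrefl _)
        · exact absurd hxy (not_lt.2 (hs y hy).2.2.1.le)
      · rcases hy with rfl | hy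
        · simp only [if_neg (hs x hx).2.2.1.ne, if_true]; exact (hs x hx).2.2.2
        · simp only [if_neg (hs x hx).2.2.1.ne, if_neg (hs y hy).2.2.1.ne]; exact hg hx hy hxy)
  refine ⟨u, hu, u1, fun x hx => ?_, fun x hx => ?_⟩
  · rcases u4 with ⟨h1, -⟩ | ⟨h1, h2, h3⟩
    · simp at h1
    · have hB : B' = B := by
        rcases Finset.mem_insert.1 h1 with h | h
        · exact h
        · exact absurd (h2 B (by simp)) (not_le.2 (hs B' h).2.2.1)
      subst hB
      have : c = 0 := by simpa using h3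
      rw [u3 x hx, this]; simp
  · rw [u2 x (Finset.mem_insert_of_mem hx), if_neg (hs x hx).2.2.1.ne]

end Pool.Agent.H610Z.C2
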