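import Pool.Agent.H610Z.C2.Coc
import Pool.Agent.H610Z.C2.W

/-! Local approximation of a two-generator group by subgroups of the smooth Thompson group. -/

set_option autoImplicit false
open Set Filter Topology

namespace Pool.Agent.H610Z.C2

theorem exists_bump {t : ℝ} (h0 : 0 < t) (h1 : t < 1 / 20) : ∃ p q : ℝ, ∃ b : Equiv.Perm ℝ,
    p < -1 / 2 ∧ 1 / 2 < q ∧ (∀ x, x ≤ p → b x = x) ∧ (∀ x, q ≤ x → b x = x) ∧
    (∀ x, p ≤ x → x ≤ q → t * x + 1 ≠ 0 ∧ b x = x / (t * x + 1) + t) ∧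
    (∀ x y, x < y → 4 / 5 * (y - x) ≤ b y - b x) ∧ ∀ x, x ≤ b x ∧ b x ≤ x + 1 / 20 := by
  obtain ⟨r, hr0, hr⟩ : ∃ r : ℝ, 0 ≤ r ∧ r * r = t ^ 2 + 4 :=
    ⟨√(t ^ 2 + 4), Real.sqrt_nonneg _, Real.mul_self_sqrt (by positivity)⟩
  have r1 : 2 < r := by nlinarith
  have r2 : r < 21 / 10 := by nlinarith
  obtain ⟨p, hp⟩ : ∃ p : ℝ, p = (t - r) / 2 := ⟨_, rfl⟩
  obtain ⟨q, hq⟩ : ∃ q : ℝ, q = (t + r) / 2 := ⟨_, rfl⟩
  have hpq : p < q := by linarith
  have den : ∀ x, p ≤ x → x ≤ q → 9 / 10 < t * x + 1 ∧ t * x + 1 < 11 / 10 := fun x a b =>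
    ⟨by nlinarith, by nlinarith⟩
  let D : ℝ → ℝ := fun x => x / (t * x + 1) + t
  have hD : ∀ x, p ≤ x → x ≤ q → D x - x = t * ((x - p) * (q - x)) / (t * x + 1) := by
    intro x a b
    have : t * x + 1 ≠ 0 := by linarith [(den x a b).1]
    have e : (x - p) * (q - x) = t * x + 1 - x ^ 2 := by rw [hp, hq]; linear_combination hr / 4
    simp only [D]
    rw [e, eq_div_iff this, sub_mul, add_mul, div_mul_cancel₀ _ this]; ring
  have hD' : ∀ x, p ≤ x → x ≤ q → D x - x ≤ t := by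
    intro x a b
    have := (den x a b).1
    have hne : t * x + 1 ≠ 0 := by linarith
    have e : D x - x = t - t * x ^ 2 / (t * x + 1) := by
      apply mul_right_cancel₀ hne
      simp only [D]
      rw [sub_mul, add_mul, div_mul_cancel₀ _ hne, sub_mul, div_mul_cancel₀ _ hne]; ring
    have : 0 ≤ t * x ^ 2 / (t * x + 1) := by positivity
    linarith
  have hDe : ∀ x y, p ≤ x → x ≤ y → y ≤ q → 4 / 5 * (y - x) ≤ D y - D x := by
    intro x y a b c
    have dx := den x a (b.trans c)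
    have dy := den y (a.trans b) c
    have e : D y - D x = (y - x) / ((t * x + 1) * (t * y + 1)) := by
      simp only [D]
      rw [add_sub_add_right_eq_sub, div_sub_div _ _ (by linarith) (by linarith), mul_comm (t * y + 1) (t * x + 1)]
      congr 1; ring
    rw [e, le_div_iff₀ (mul_pos (by linarith) (by linarith))]
    have : (t * x + 1) * (t * y + 1) ≤ 5 / 4 := by nlinarith
    nlinarith
  let cl : ℝ → ℝ := fun x => max p (min x q)
  have c1 : ∀ x, p ≤ cl x := fun x => le_max_left _ _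
  have c2 : ∀ x, cl x ≤ q := fun x => max_le hpq.le (min_le_right _ _)
  have cl1 : ∀ x, x ≤ p → cl x = p := fun x hx => max_eq_left ((min_le_left _ _).trans hx)
  have cl2 : ∀ x, p ≤ x → x ≤ q → cl x = x := fun x a b => by
    simp only [cl]; rw [min_eq_left b, max_eq_right a]
  have cl3 : ∀ x, q ≤ x → cl x = q := fun x hx => by
    simp only [cl]; rw [min_eq_right hx, max_eq_right hpq.le]
  let b0 : ℝ → ℝ := fun x => x + (D (cl x) - cl x)
  have hexp : ∀ x y, x < y → 4 / 5 * (y - x) ≤ b0 y - b0 x := by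
    intro x y hxy
    have a1 : cl x ≤ cl y := max_le_max le_rfl (min_le_min hxy.le le_rfl)
    have a2 : cl y - cl x ≤ y - x := by
      simp only [cl, max_def, min_def]; split_ifs <;> linarith
    have := hDe _ _ (c1 x) a1 (c2 y)
    simp only [b0]; linarith
  have hdis : ∀ x, x ≤ b0 x ∧ b0 x ≤ x + 1 / 20 := by
    intro x
    have a1 := hD' _ (c1 x) (c2 x)
    have a2 : 0 ≤ D (cl x) - cl x := by
      rw [hD _ (c1 x) (c2 x)]
      exact div_nonneg (mul_nonneg h0.le (mul_nonneg (sub_nonneg.2 (c1 x)) (sub_nonneg.2 (c2 x))))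
        (by linarith [(den _ (c1 x) (c2 x)).1])
    simp only [b0]; constructor <;> linarith
  have hc : Continuous b0 := by
    have hcl : Continuous cl := by fun_prop
    refine continuous_id.add (Continuous.sub (Continuous.add (hcl.div (by fun_prop) fun x => ?_)
      continuous_const) hcl)
    linarith [(den _ (c1 x) (c2 x)).1]
  have hm : StrictMono b0 := fun x y hxy => by have := hexp x y hxy; linarith
  have hs : Function.Surjective b0 := hc.surjective
    (tendsto_atTop_mono (fun x => (hdis x).1) tendsto_id)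
    (tendsto_atBot_mono (fun x => (hdis x).2) (tendsto_atBot_add_const_right _ _ tendsto_id))
  refine ⟨p, q, Equiv.ofBijective b0 ⟨hm.injective, hs⟩, by linarith, by linarith,
    fun x hx => ?_, fun x hx => ?_, fun x a b => ⟨by linarith [(den x a b).1], ?_⟩, hexp, hdis⟩
  · change x + (D (cl x) - cl x) = x
    rw [cl1 x hx, hD p le_rfl hpq.le]; simp
  · change x + (D (cl x) - cl x) = x
    rw [cl3 x hx, hD q hpq.le le_rfl]; simp
  · change x + (D (cl x) - cl x) = D x
    rw [cl2 x a b]; ring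

theorem interp (P : Finset ℝ) (θ : ℝ → ℤ) (hθ : StrictMonoOn θ P) (g : ℝ → ℝ) (hg : StrictMono g)
    (A B : ℤ) (hAB : A < B) (T : Finset ℝ)
    (hT : ∀ x ∈ T, x ∈ P ∧ g x ∈ P ∧ A < θ x ∧ A < θ (g x) ∧ θ x < B ∧ θ (g x) < B) :
    ∃ u ∈ WG, (∀ x : ℝ, x ≤ A → u x = x) ∧ (∀ x : ℝ, B ≤ x → u x = x) ∧
      ∀ x ∈ T, u (θ x) = θ (g x) := by
  have hinj : InjOn θ T := hθ.injOn.mono fun x hx => (hT x hx).1
  have hl : ∀ x ∈ T, Function.invFunOn θ T (θ x) = x := fun x hx => hinj.leftInvOn_invFunOn hx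
  obtain ⟨u, hu, u1, u2, u3⟩ := exists_interp_supp A B hAB (T.image θ)
    (fun k => θ (g (Function.invFunOn θ T k))) (by
      intro k hk
      obtain ⟨x, hx, rfl⟩ := Finset.mem_image.1 hk
      rw [hl x hx]; exact (hT x hx).2.2) (by
      intro k hk k' hk' hkk
      obtain ⟨x, hx, rfl⟩ := Finset.mem_image.1 hk
      obtain ⟨y, hy, rfl⟩ := Finset.mem_image.1 hk'
      simp only [hl x hx, hl y hy]
      exact hθ (hT x hx).2.1 (hT y hy).2.1
        (hg ((hθ.lt_iff_lt (hT x hx).1 (hT y hy).1).1 hkk)))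
  refine ⟨u, hu, u1, u2, fun x hx => ?_⟩
  rw [u3 _ (Finset.mem_image_of_mem θ hx), hl x hx]

theorem block (h : Fin 2 → Equiv.Perm ℝ) (hm : ∀ i, StrictMono (h i)) (p q : ℝ) (hpq : p < q)
    (hb : ∀ x, x ∉ Ioo p q → h 1 x = x)
    (hfin : ∀ w, FreeGroup.lift h w = 1 → {x | coc h ![univ, Ioo p q] w x ≠ 1}.Finite)
    (Q : Finset ℝ) (n : ℕ) (o : ℤ) : ∃ o' : ℤ, o < o' ∧ ∃ φ : F →* Equiv.Perm ℝ,
      (∀ w, φ w ∈ WG) ∧ (∀ w (x : ℝ), x ≤ o ∨ o' ≤ x → φ w x = x) ∧
      (∀ w, FreeGroup.lift h w = 1 → w.toWord.length ≤ n → φ w = 1) ∧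
      ∀ w, φ w = 1 → w.toWord.length ≤ n → ∀ z ∈ Q, FreeGroup.lift h w z = z := by
  classical
  let Q' : Finset ℝ := insert p (insert q Q)
  have hfinP := (List.finite_length_le (Fin 2 × Bool) n).image2
    (fun v z => FreeGroup.lift h (FreeGroup.mk v) z) Q'.finite_toSet
  let P := hfinP.toFinset
  have hP : ∀ v : List (Fin 2 × Bool), v.length ≤ n → ∀ z ∈ Q',
      FreeGroup.lift h (FreeGroup.mk v) z ∈ P := fun v hv z hz =>
    hfinP.mem_toFinset.2 ⟨v, hv, z, hz, rfl⟩
  have hQ : ∀ z ∈ Q', z ∈ P := fun z hz => by simpa using hP [] (Nat.zero_le _) z hz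
  have hp : p ∈ Q' := by simp [Q']
  have hq : q ∈ Q' := by simp [Q']
  let θ : ℝ → ℤ := fun x => o + 1 + (P.filter (· < x)).card
  have hθ : StrictMonoOn θ P := by
    intro x hx y _ hxy
    have : (P.filter (· < x)).card < (P.filter (· < y)).card := by
      refine Finset.card_lt_card ⟨fun z hz => ?_, fun hsub => ?_⟩
      · rw [Finset.mem_filter] at hz ⊢; exact ⟨hz.1, hz.2.trans hxy⟩
      · have := hsub (Finset.mem_filter.2 ⟨hx, hxy⟩)
        exact lt_irrefl _ (Finset.mem_filter.1 this).2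
    simp only [θ]; omega
  have hθb : ∀ x, o < θ x ∧ θ x < o + P.card + 2 := fun x => by
    have := Finset.card_filter_le P (· < x)
    simp only [θ]; omega
  have hθpq : θ p < θ q := hθ (hQ p hp) (hQ q hq) hpq
  obtain ⟨a, ha, a1, a2, a3⟩ := interp P θ hθ (h 0) (hm 0) o (o + P.card + 2) (by omega)
    (P.filter fun x => h 0 x ∈ P) fun x hx => by
      rw [Finset.mem_filter] at hx
      exact ⟨hx.1, hx.2, (hθb _).1, (hθb _).1, (hθb _).2, (hθb _).2⟩
  obtain ⟨b, hb', b1, b2, b3⟩ := interp P θ hθ (h 1) (hm 1) (θ p) (θ q) hθpq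
    (P.filter fun x => h 1 x ∈ P ∧ x ∈ Ioo p q) fun x hx => by
      rw [Finset.mem_filter] at hx
      have e1 : p < h 1 x := by
        have := hm 1 hx.2.2.1; rwa [hb p (by simp)] at this
      have e2 : h 1 x < q := by
        have := hm 1 hx.2.2.2; rwa [hb q (by simp)] at this
      exact ⟨hx.1, hx.2.1, hθ (hQ p hp) hx.1 hx.2.2.1, hθ (hQ p hp) hx.2.1 e1,
        hθ hx.1 (hQ q hq) hx.2.2.2, hθ hx.2.1 (hQ q hq) e2⟩
  let h' : Fin 2 → Equiv.Perm ℝ := ![a, b]
  have hW : ∀ w, FreeGroup.lift h' w ∈ WG := lift_mem WG fun i => by fin_cases i <;> assumption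
  have hm' : ∀ w, StrictMono (FreeGroup.lift h' w) := fun w => (hW w).1.1
  have b4 : ∀ x : ℝ, x ∉ Ioo (θ p : ℝ) (θ q) → b x = x := fun x hx => by
    rcases le_or_gt x (θ p) with c | c
    · exact b1 x c
    · exact b2 x (not_lt.1 fun d => hx ⟨c, d⟩)
  have gen : ∀ i x, x ∈ P → h i x ∈ P → h' i (θ x) = θ (h i x) := by
    intro i x hx hx'
    fin_cases i
    · exact a3 x (Finset.mem_filter.2 ⟨hx, hx'⟩)
    · by_cases hI : x ∈ Ioo p q
      · exact b3 x (Finset.mem_filter.2 ⟨hx, hx', hI⟩)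
      · change b (θ x) = θ (h 1 x)
        rw [hb x hI]
        refine b4 _ fun hc => hI ⟨?_, ?_⟩
        · exact (hθ.lt_iff_lt (hQ p hp) hx).1 (by exact_mod_cast hc.1)
        · exact (hθ.lt_iff_lt hx (hQ q hq)).1 (by exact_mod_cast hc.2)
  have equi : ∀ v : List (Fin 2 × Bool), v.length ≤ n → ∀ z ∈ Q',
      FreeGroup.lift h' (FreeGroup.mk v) (θ z) = θ (FreeGroup.lift h (FreeGroup.mk v) z) := by
    intro v
    induction v with
    | nil => intro _ z _; simp [← FreeGroup.one_eq_mk]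
    | cons s v ih =>
      intro hv z hz
      have hv' : v.length ≤ n := by simp at hv; omega
      have m1 := hP v hv' z hz
      have m2 := hP _ hv z hz
      obtain ⟨i, c⟩ := s
      cases c with
      | true =>
        rw [mk_cons_true, map_mul, FreeGroup.lift_apply_of, Equiv.Perm.mul_apply] at m2 ⊢
        rw [ih hv' z hz, map_mul, FreeGroup.lift_apply_of, Equiv.Perm.mul_apply]
        exact gen i _ m1 m2
      | false =>
        rw [mk_cons_false, map_mul, map_inv, FreeGroup.lift_apply_of, Equiv.Perm.mul_apply] at m2 ⊢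
        rw [ih hv' z hz, map_mul, map_inv, FreeGroup.lift_apply_of, Equiv.Perm.mul_apply,
          Equiv.Perm.inv_eq_iff_eq, gen i _ m2 (by simpa using m1)]
        simp
  refine ⟨o + P.card + 2, by omega, FreeGroup.lift h', hW, fun w x hx => ?_, fun w hw hn => ?_,
    fun w hw hn z hz => ?_⟩
  · have := lift_mem (h := h') (MulAction.stabilizer (Equiv.Perm ℝ) x) (fun i => by
      fin_cases i
      · exact hx.elim (a1 x) (a2 x)
      · refine b4 x fun hc => ?_
        have e1 : (o : ℝ) < θ p := by exact_mod_cast (hθb p).1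
        have e2 : (θ q : ℝ) < (o + P.card + 2 : ℤ) := by exact_mod_cast (hθb q).2
        rcases hx with hx | hx
        · linarith [hc.1]
        · linarith [hc.2]) w
    exact this
  · ext y0
    refine eq_of_finite_moved (hm' w) (P.finite_toSet.image fun z => (θ z : ℝ)) (fun y hy => ?_) y0
    have hlh : ∀ x ∈ P.filter (fun z => (θ z : ℝ) < y), ∀ z ∈ P.filter (fun z => y < (θ z : ℝ)),
        x < z := by
      intro x hx z hz
      rw [Finset.mem_filter] at hx hz
      exact (hθ.lt_iff_lt hx.1 hz.1).1 (by exact_mod_cast hx.2.trans hz.2)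
    obtain ⟨m1, l1, l2⟩ := Order.exists_between_finsets _ _ hlh
    obtain ⟨m2, l3, l4⟩ := Order.exists_between_finsets {m1} _
      (fun x hx => by rw [Finset.mem_singleton.1 hx]; exact l2)
    obtain ⟨x, hx, hx'⟩ := (Ioo_infinite (l3 m1 (by simp))).exists_notMem_finite (hfin w hw)
    have lo : ∀ z ∈ P, z < x ↔ (θ z : ℝ) < y := by
      intro z hz
      refine ⟨fun c => ?_, fun c => (l1 z (Finset.mem_filter.2 ⟨hz, c⟩)).trans hx.1⟩
      rcases lt_trichotomy (θ z : ℝ) y with d | d | d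
      · exact d
      · exact absurd ⟨z, hz, d⟩ hy
      · linarith [l4 z (Finset.mem_filter.2 ⟨hz, d⟩), hx.2]
    have hi : ∀ z ∈ P, x < z ↔ y < (θ z : ℝ) := by
      intro z hz
      refine ⟨fun c => ?_, fun c => hx.2.trans (l4 z (Finset.mem_filter.2 ⟨hz, c⟩))⟩
      rcases lt_trichotomy (θ z : ℝ) y with d | d | d
      · linarith [l1 z (Finset.mem_filter.2 ⟨hz, d⟩), hx.1]
      · exact absurd ⟨z, hz, d⟩ hy
      · exact d
    have cmp := coc_compare (h := h) (h' := h') (I := ![univ, Ioo p q])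
      (I' := ![univ, Ioo (θ p : ℝ) (θ q)]) x y w.toWord fun u hu i => by
      fin_cases i
      · simp
      · have hu' : (FreeGroup.invRev u).length ≤ n := by
          rw [FreeGroup.invRev_length]; omega
        have e1 := equi _ hu' p hp
        have e2 := equi _ hu' q hq
        have f1 := lo _ (hP _ hu' p hp)
        have f2 := hi _ (hP _ hu' q hq)
        rw [← e1] at f1
        rw [← e2] at f2
        rw [← FreeGroup.inv_mk, map_inv, map_inv] at f1 f2
        have k1 : ∀ {g : Equiv.Perm ℝ}, StrictMono g → ∀ a b, g⁻¹ a < b ↔ a < g b :=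
          fun hg a b => by rw [← hg.lt_iff_lt]; simp
        have k2 : ∀ {g : Equiv.Perm ℝ}, StrictMono g → ∀ a b, b < g⁻¹ a ↔ g b < a :=
          fun hg a b => by rw [← hg.lt_iff_lt]; simp
        rw [k1 (lift_mono hm _), k1 (hm' _)] at f1
        rw [k2 (lift_mono hm _), k2 (hm' _)] at f2
        exact and_congr f1 f2
    rw [FreeGroup.mk_toWord] at cmp
    have c1 : coc h ![univ, Ioo p q] w x = 1 := not_not.1 hx'
    have := coc_act (h := h') (I := ![univ, Ioo (θ p : ℝ) (θ q)]) (FreeGroup.lift h') id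
      (fun i x _ => by simp) (fun i x hx => by
        fin_cases i
        · simp at hx
        · exact b4 x hx) w y
    rw [← cmp, c1, map_one, one_smul] at this
    exact this.symm
  · have hz' : z ∈ Q' := by simp [Q', hz]
    have := equi _ hn z hz'
    have m := hP _ hn z hz'
    rw [FreeGroup.mk_toWord] at this m
    rw [hw, Equiv.Perm.one_apply] at this
    exact hθ.injOn m (hQ z hz') (by exact_mod_cast this.symm)

end Pool.Agent.H610Z.C2
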