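import Pool.Agent.H610Z.C2.BS

/-! The orbit cocycle of a pair of piecewise defined maps. -/

set_option autoImplicit false
open Set Filter Topology

namespace Pool.Agent.H610Z.C2

/-- Skew product. -/
def sk (h : Equiv.Perm ℝ) (k : ℝ → F) : Equiv.Perm (ℝ × F) where
  toFun z := (h z.1, k z.1 * z.2)
  invFun z := (h.symm z.1, (k (h.symm z.1))⁻¹ * z.2)
  left_inv z := by simp
  right_inv z := by simp

open Classical in
noncomputable def skew (h : Fin 2 → Equiv.Perm ℝ) (I : Fin 2 → Set ℝ) : F →* Equiv.Perm (ℝ × F) :=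
  FreeGroup.lift fun i => sk (h i) fun x => if x ∈ I i then FreeGroup.of i else 1

/-- The cocycle. -/
noncomputable def coc (h : Fin 2 → Equiv.Perm ℝ) (I : Fin 2 → Set ℝ) (w : F) (x : ℝ) : F :=
  (skew h I w (x, 1)).2

variable {h h' : Fin 2 → Equiv.Perm ℝ} {I I' : Fin 2 → Set ℝ}

theorem skew_apply (w : F) : ∀ (x : ℝ) (γ : F),
    skew h I w (x, γ) = (FreeGroup.lift h w x, coc h I w x * γ) := by
  unfold coc
  induction w using FreeGroup.induction_on with
  | C1 => simp
  | of i => intro x γ; simp [skew, sk]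
  | inv_of i _ => intro x γ; simp [skew, sk, Equiv.Perm.inv_def]
  | mul u v hu hv =>
    intro x γ
    simp only [map_mul, Equiv.Perm.mul_apply]
    rw [hv x γ, hv x 1, hu, hu _ (_ * 1)]
    simp [mul_assoc]

theorem coc_one (x : ℝ) : coc h I 1 x = 1 := by simp [coc]

open Classical in
theorem coc_of (i : Fin 2) (x : ℝ) :
    coc h I (FreeGroup.of i) x = if x ∈ I i then FreeGroup.of i else 1 := by
  simp [coc, skew, sk]

theorem coc_mul (u v : F) (x : ℝ) :
    coc h I (u * v) x = coc h I u (FreeGroup.lift h v x) * coc h I v x := by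
  conv_lhs => rw [coc, map_mul, Equiv.Perm.mul_apply, skew_apply v, skew_apply u]
  simp

theorem coc_inv (w : F) (x : ℝ) : coc h I w⁻¹ x = (coc h I w (FreeGroup.lift h w⁻¹ x))⁻¹ := by
  have := coc_mul (h := h) (I := I) w w⁻¹ x
  rw [mul_inv_cancel, coc_one] at this
  exact eq_inv_of_mul_eq_one_right this.symm

theorem coc_act {G X : Type} [Group G] [MulAction G X] (ψ : F →* G) (ι : ℝ → X)
    (h1 : ∀ i x, x ∈ I i → ψ (FreeGroup.of i) • ι x = ι (h i x))
    (h2 : ∀ i x, x ∉ I i → h i x = x) (w : F) :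
    ∀ x, ψ (coc h I w x) • ι x = ι (FreeGroup.lift h w x) := by
  have gen : ∀ i x, ψ (coc h I (FreeGroup.of i) x) • ι x =
      ι (FreeGroup.lift h (FreeGroup.of i) x) := by
    intro i x
    rw [coc_of, FreeGroup.lift_apply_of]
    split_ifs with hx
    · exact h1 i x hx
    · rw [map_one, one_smul, h2 i x hx]
  induction w using FreeGroup.induction_on with
  | C1 => simp [coc_one]
  | of i => exact gen i
  | inv_of i ih =>
    intro x
    rw [coc_inv, map_inv, inv_smul_eq_iff, ih, ← Equiv.Perm.mul_apply, ← map_mul]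
    simp
  | mul u v hu hv =>
    intro x
    rw [coc_mul, map_mul, mul_smul, hv, hu, map_mul, Equiv.Perm.mul_apply]

theorem coc_finite (w : F) : (range (coc h I w)).Finite := by
  have gen : ∀ i, (range (coc h I (FreeGroup.of i))).Finite := by
    intro i
    refine (toFinite ({FreeGroup.of i, 1} : Set F)).subset ?_
    rintro _ ⟨x, rfl⟩
    rw [coc_of]
    split_ifs <;> simp
  induction w using FreeGroup.induction_on with
  | C1 =>
    refine (finite_singleton (1 : F)).subset ?_
    rintro _ ⟨x, rfl⟩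
    simp [coc_one]
  | of i => exact gen i
  | inv_of i ih =>
    refine (ih.image fun γ => γ⁻¹).subset ?_
    rintro _ ⟨x, rfl⟩
    exact ⟨_, mem_range_self _, (coc_inv _ x).symm⟩
  | mul u v hu hv =>
    refine (hu.image2 (· * ·) hv).subset ?_
    rintro _ ⟨x, rfl⟩
    exact ⟨_, mem_range_self _, _, mem_range_self _, (coc_mul u v x).symm⟩

theorem lift_mem (K : Subgroup (Equiv.Perm ℝ)) (hK : ∀ i, h i ∈ K) (w : F) :
    FreeGroup.lift h w ∈ K :=
  FreeGroup.range_lift_le (s := K) (by rintro _ ⟨i, rfl⟩; exact hK i) ⟨w, rfl⟩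

theorem lift_mono (hm : ∀ i, StrictMono (h i)) (w : F) : StrictMono (FreeGroup.lift h w) := by
  let K : Subgroup (Equiv.Perm ℝ) :=
    { carrier := {g | StrictMono g}
      one_mem' := strictMono_id
      mul_mem' := fun a b => a.comp b
      inv_mem' := fun a => strictMono_inv a }
  exact lift_mem K hm w

theorem coc_meas (hm : ∀ i, StrictMono (h i)) (hI : ∀ i, MeasurableSet (I i)) (w : F) :
    ∀ S : Set F, MeasurableSet (coc h I w ⁻¹' S) := by
  let _ : MeasurableSpace F := ⊤
  have : DiscreteMeasurableSpace F := ⟨fun _ => trivial⟩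
  suffices Measurable (coc h I w) from fun S => this trivial
  have hl : ∀ w, Measurable (FreeGroup.lift h w) := fun w => (lift_mono hm w).monotone.measurable
  induction w using FreeGroup.induction_on with
  | C1 =>
    have : coc h I 1 = fun _ => 1 := funext coc_one
    rw [this]; exact measurable_const
  | of i =>
    have := funext (coc_of (h := h) (I := I) i)
    rw [this]; exact Measurable.ite (hI i) measurable_const measurable_const
  | inv_of i ih =>
    have := funext (coc_inv (h := h) (I := I) (FreeGroup.of i))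
    rw [this]
    exact (Measurable.of_discrete (f := fun γ : F => γ⁻¹)).comp (ih.comp (hl _))
  | mul u v hu hv =>
    have := funext (coc_mul (h := h) (I := I) u v)
    rw [this]
    exact (Measurable.of_discrete (f := fun γ : F × F => γ.1 * γ.2)).comp
      ((hu.comp (hl v)).prodMk hv)

theorem mk_cons_true (i : Fin 2) (v : List (Fin 2 × Bool)) :
    (FreeGroup.mk ((i, true) :: v) : F) = FreeGroup.of i * FreeGroup.mk v := rfl

theorem mk_cons_false (i : Fin 2) (v : List (Fin 2 × Bool)) :
    (FreeGroup.mk ((i, false) :: v) : F) = (FreeGroup.of i)⁻¹ * FreeGroup.mk v := rfl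

theorem coc_compare (x y : ℝ) (v : List (Fin 2 × Bool))
    (hv : ∀ u : List (Fin 2 × Bool), u.length ≤ v.length → ∀ i,
      (FreeGroup.lift h (FreeGroup.mk u) x ∈ I i ↔ FreeGroup.lift h' (FreeGroup.mk u) y ∈ I' i)) :
    coc h I (FreeGroup.mk v) x = coc h' I' (FreeGroup.mk v) y := by
  induction v with
  | nil => exact (coc_one x).trans (coc_one y).symm
  | cons s v ih =>
    have ih' := ih fun u hu => hv u (hu.trans (by simp))
    obtain ⟨i, b⟩ := s
    cases b with
    | true =>
      rw [mk_cons_true, coc_mul, coc_mul, ih', coc_of, coc_of]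
      have := hv v (by simp) i
      by_cases hx : FreeGroup.lift h (FreeGroup.mk v) x ∈ I i
      · rw [if_pos hx, if_pos (this.1 hx)]
      · rw [if_neg hx, if_neg (mt this.2 hx)]
    | false =>
      have := hv _ le_rfl i
      rw [mk_cons_false, map_mul, map_mul, Equiv.Perm.mul_apply, Equiv.Perm.mul_apply] at this
      rw [mk_cons_false, coc_mul, coc_mul, ih', coc_inv, coc_inv (h := h'), coc_of, coc_of]
      by_cases hx : FreeGroup.lift h (FreeGroup.of i)⁻¹ (FreeGroup.lift h (FreeGroup.mk v) x) ∈ I i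
      · rw [if_pos hx, if_pos (this.1 hx)]
      · rw [if_neg hx, if_neg (mt this.2 hx)]

theorem coc_cofinite {G X : Type} [Group G] [MulAction G X] (ψ : F →* G) (ι : ℝ → X)
    (h1 : ∀ i x, x ∈ I i → ψ (FreeGroup.of i) • ι x = ι (h i x))
    (h2 : ∀ i x, x ∉ I i → h i x = x) (hψ : ∀ γ, γ ≠ 1 → {x | ψ γ • ι x = ι x}.Finite)
    {w w' : F} (hw : FreeGroup.lift h w = FreeGroup.lift h w') :
    {x | coc h I w x ≠ coc h I w' x}.Finite := by
  have hf := ((coc_finite (h := h) (I := I) w').image2 (fun γ δ => γ⁻¹ * δ)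
    (coc_finite (h := h) (I := I) w)).subset (sdiff_subset (t := {1}))
  refine (hf.biUnion fun γ hγ => hψ γ hγ.2).subset fun x hx => ?_
  simp only [mem_iUnion]
  refine ⟨(coc h I w' x)⁻¹ * coc h I w x, ⟨⟨_, mem_range_self _, _, mem_range_self _, rfl⟩, ?_⟩, ?_⟩
  · rw [mem_singleton_iff, inv_mul_eq_one]; exact fun e => hx e.symm
  · rw [mem_ofPred_eq, map_mul, mul_smul, coc_act ψ ι h1 h2, map_inv, inv_smul_eq_iff,
      coc_act ψ ι h1 h2, hw]

end Pool.Agent.H610Z.C2
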