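import Pool.Agent.H610Z.C2.Coc

/-! No invariant mean on a group mapping onto an orbit-equivalent copy of a free action. -/

set_option autoImplicit false
open Set Filter Topology MeasureTheory

namespace Pool.Agent.H610Z.C2

theorem mean_lin {H ι : Type} (m : Set H → ℝ) (h0 : ∀ A, 0 ≤ m A)
    (hadd : ∀ A B, Disjoint A B → m (A ∪ B) = m A + m B) (c : ι → ℝ) (A : ι → Set H)
    (s : Finset ι) : ∀ (S : Set H) (e : ℝ),
      (∀ x ∈ S, e ≤ ∑ i ∈ s, (A i).indicator (fun _ => c i) x) →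
      e * m S ≤ ∑ i ∈ s, c i * m (A i ∩ S) := by
  classical
  have hsplit : ∀ S B, m S = m (S ∩ B) + m (S \ B) := fun S B => by
    rw [← hadd _ _ disjoint_sdiff_inter.symm, inter_union_sdiff]
  induction s using Finset.induction_on with
  | empty =>
    intro S e h
    rcases S.eq_empty_or_nonempty with rfl | ⟨x, hx⟩
    · have := hadd ∅ ∅ (by simp)
      rw [union_self] at this
      have h1 : m ∅ = 0 := by linarith
      simp [h1]
    · have := h x hx
      rw [Finset.sum_empty] at this ⊢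
      exact mul_nonpos_of_nonpos_of_nonneg this (h0 S)
  | insert a s ha ih =>
    intro S e h
    have h1 := ih (S ∩ A a) (e - c a) fun x hx => by
      have := h x hx.1
      rw [Finset.sum_insert ha, indicator_of_mem hx.2] at this
      linarith
    have h2 := ih (S \ A a) e fun x hx => by
      have := h x hx.1
      rw [Finset.sum_insert ha, indicator_of_notMem hx.2] at this
      linarith
    have h3 : ∑ i ∈ s, c i * m (A i ∩ S) =
        ∑ i ∈ s, c i * m (A i ∩ (S ∩ A a)) + ∑ i ∈ s, c i * m (A i ∩ (S \ A a)) := by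
      rw [← Finset.sum_add_distrib]
      refine Finset.sum_congr rfl fun i _ => ?_
      rw [hsplit (A i ∩ S) (A a), inter_assoc, inter_sdiff_assoc]; ring
    rw [Finset.sum_insert ha, h3, hsplit S (A a), inter_comm (A a) S]
    linarith

theorem no_mean_nat {H : Type} [Group H] (m : Set H → ℝ) (h0 : ∀ A, 0 ≤ m A) (h1 : m univ = 1)
    (hadd : ∀ A B, Disjoint A B → m (A ∪ B) = m A + m B)
    (hinv : ∀ (g : H) (A : Set H), m ((fun x => g * x) ⁻¹' A) = m A)
    (N : ℕ) (v : Fin 2 → H → ℕ) (hv : ∀ i g, v i g ≤ N) (a : Fin 2 → H)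
    (h : ∀ g, ∑ i, v i g < ∑ i, v i (a i * g)) : False := by
  have key : ∀ n ≤ N, ∑ k : Fin N, (if (k : ℕ) < n then (1 : ℝ) else 0) = n := by
    intro n hn
    rw [Fin.sum_univ_eq_sum_range (fun k => if k < n then (1 : ℝ) else 0), Finset.sum_boole]
    have : (Finset.range N).filter (fun k => k < n) = Finset.range n := by
      ext k; simp; omega
    rw [this, Finset.card_range]
  have := mean_lin m h0 hadd (ι := Bool × Fin 2 × Fin N) (fun z => if z.1 then 1 else -1)
    (fun z => if z.1 then (fun x => a z.2.1 * x) ⁻¹' {g | (z.2.2 : ℕ) < v z.2.1 g}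
      else {g | (z.2.2 : ℕ) < v z.2.1 g}) Finset.univ univ 1 (fun g _ => by
      have h2 : ((∑ i, v i g : ℕ) : ℝ) + 1 ≤ (∑ i, v i (a i * g) : ℕ) := by exact_mod_cast h g
      push_cast at h2
      simp only [← key _ (hv _ _)] at h2
      simp only [Fintype.sum_prod_type, Fintype.sum_bool, if_true, Bool.false_eq_true, if_false,
        preimage_ofPred_eq, indicator_apply, mem_ofPred_eq]
      have e : ∀ (i : Fin 2) (k : Fin N), (if (k : ℕ) < v i g then (-1 : ℝ) else 0) =
          -(if (k : ℕ) < v i g then (1 : ℝ) else 0) := fun i k => by split_ifs <;> simp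
      simp only [e, Finset.sum_neg_distrib]
      linarith)
  simp only [Fintype.sum_prod_type, Fintype.sum_bool, if_true, Bool.false_eq_true, if_false,
    inter_univ, hinv, h1, neg_mul, Finset.sum_neg_distrib] at this
  linarith

theorem no_mean_real {H : Type} [Group H] (m : Set H → ℝ) (h0 : ∀ A, 0 ≤ m A) (h1 : m univ = 1)
    (hadd : ∀ A B, Disjoint A B → m (A ∪ B) = m A + m B)
    (hinv : ∀ (g : H) (A : Set H), m ((fun x => g * x) ⁻¹' A) = m A)
    (u : Fin 2 → H → ℝ) (hu : ∀ i g, 0 ≤ u i g ∧ u i g ≤ 1) (a : Fin 2 → H)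
    (h : ∀ g, ∑ i, u i g + 1 / 2 ≤ ∑ i, u i (a i * g)) : False := by
  refine no_mean_nat m h0 h1 hadd hinv 10 (fun i g => ⌊10 * u i g⌋₊) (fun i g => ?_) a fun g => ?_
  · exact Nat.floor_le_of_le (by push_cast; linarith [(hu i g).2])
  · have a1 := fun i g => Nat.floor_le (a := 10 * u i g) (by linarith [(hu i g).1])
    have a2 := fun i g => Nat.lt_floor_add_one (10 * u i g)
    have h2 := h g
    simp only [Fin.sum_univ_two] at h2 ⊢
    have : ((⌊10 * u 0 g⌋₊ + ⌊10 * u 1 g⌋₊ : ℕ) : ℝ) <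
        (⌊10 * u 0 (a 0 * g)⌋₊ + ⌊10 * u 1 (a 1 * g)⌋₊ : ℕ) := by
      push_cast
      linarith [a1 0 g, a1 1 g, a2 0 (a 0 * g), a2 1 (a 1 * g)]
    exact_mod_cast this

theorem vol_le_image {h : Equiv.Perm ℝ} (hexp : ∀ x y, x < y → 4 / 5 * (y - x) ≤ h y - h x)
    (S : Set ℝ) : volume S ≤ ENNReal.ofReal (5 / 4) * volume (h '' S) := by
  have hm : StrictMono h := fun x y hxy => by have := hexp x y hxy; linarith
  have hl : LipschitzWith (5 / 4 : ℝ).toNNReal (h.symm) := by
    refine LipschitzWith.of_dist_le' fun x y => ?_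
    obtain ⟨x, rfl⟩ := h.surjective x
    obtain ⟨y, rfl⟩ := h.surjective y
    rw [Equiv.symm_apply_apply, Equiv.symm_apply_apply, Real.dist_eq, Real.dist_eq]
    rcases lt_trichotomy x y with a | a | a
    · have := hexp x y a
      rw [abs_of_neg (by linarith), abs_of_neg (by linarith)]; linarith
    · simp [a]
    · have := hexp y x a
      rw [abs_of_pos (by linarith), abs_of_pos (by linarith)]; linarith
  have := hl.hausdorffMeasure_image_le zero_le_one (h '' S)
  rwa [hausdorffMeasure_real, Equiv.symm_image_image, ENNReal.rpow_one] at this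

theorem vol_step {h : Equiv.Perm ℝ} (hexp : ∀ x y, x < y → 4 / 5 * (y - x) ≤ h y - h x)
    (hd : ∀ x, x ≤ h x ∧ h x ≤ x + 1 / 20) {X Y E : Set ℝ} (hE : E.Finite)
    (hXY : ∀ x ∈ Icc (-1 / 2 : ℝ) (1 / 2), h x ∉ E → x ∉ X → h x ∈ Y) :
    3 / 4 ≤ volume.real (Icc (-1 / 2 : ℝ) (1 / 2) ∩ X) +
      volume.real (Icc (-1 / 2 : ℝ) (1 / 2) ∩ Y) := by
  set J := Icc (-1 / 2 : ℝ) (1 / 2) with hJ
  have fin : ∀ Z, volume (J ∩ Z) ≠ ⊤ := fun Z =>
    ne_top_of_le_ne_top (by simp [hJ]) (measure_mono inter_subset_left)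
  let S := Icc (-1 / 2 : ℝ) (9 / 20) \ X
  have h1 : h '' S ⊆ (J ∩ Y) ∪ E := by
    rintro _ ⟨x, ⟨hx, hx'⟩, rfl⟩
    by_cases he : h x ∈ E
    · exact Or.inr he
    · refine Or.inl ⟨⟨by linarith [hx.1, (hd x).1], by linarith [hx.2, (hd x).2]⟩, ?_⟩
      exact hXY x ⟨hx.1, by linarith [hx.2]⟩ he hx'
  have h2 : volume S ≤ ENNReal.ofReal (5 / 4) * volume (J ∩ Y) := by
    refine (vol_le_image hexp S).trans (mul_le_mul_right ?_ _)
    refine (measure_mono h1).trans ((measure_union_le _ _).trans ?_)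
    rw [hE.measure_zero, add_zero]
  have h3 : Icc (-1 / 2 : ℝ) (9 / 20) ⊆ S ∪ (J ∩ X) := by
    intro x hx
    by_cases hx' : x ∈ X
    · exact Or.inr ⟨⟨hx.1, by linarith [hx.2]⟩, hx'⟩
    · exact Or.inl ⟨hx, hx'⟩
  have h4 := (measure_mono (μ := volume) h3).trans ((measure_union_le _ _).trans
    (add_le_add_left h2 _))
  have h5 := ENNReal.toReal_mono (ENNReal.add_ne_top.2
    ⟨ENNReal.mul_ne_top ENNReal.ofReal_ne_top (fin Y), fin X⟩) h4
  rw [ENNReal.toReal_add (ENNReal.mul_ne_top ENNReal.ofReal_ne_top (fin Y)) (fin X),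
    ENNReal.toReal_mul, Real.volume_Icc, ENNReal.toReal_ofReal (by norm_num),
    ENNReal.toReal_ofReal (by norm_num)] at h5
  have := ENNReal.toReal_nonneg (a := volume (J ∩ X))
  simp only [Measure.real]
  linarith

theorem no_mean {h : Fin 2 → Equiv.Perm ℝ} {I : Fin 2 → Set ℝ}
    (hexp : ∀ i x y, x < y → 4 / 5 * (y - x) ≤ h i y - h i x)
    (hd : ∀ i x, x ≤ h i x ∧ h i x ≤ x + 1 / 20) (hI : ∀ i, MeasurableSet (I i))
    (hJ : ∀ i, Icc (-1 / 2 : ℝ) (1 / 2) ⊆ I i)
    (hfin : ∀ w w' : F, FreeGroup.lift h w = FreeGroup.lift h w' →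
      {x | coc h I w x ≠ coc h I w' x}.Finite)
    {H : Type} [Group H] (π : F →* H) (hπ : Function.Surjective π)
    (hker : ∀ w, π w = 1 → FreeGroup.lift h w = 1)
    (m : Set H → ℝ) (h0 : ∀ A, 0 ≤ m A) (h1 : m univ = 1)
    (hadd : ∀ A B, Disjoint A B → m (A ∪ B) = m A + m B)
    (hinv : ∀ (g : H) (A : Set H), m ((fun x => g * x) ⁻¹' A) = m A) : False := by
  have hm : ∀ i, StrictMono (h i) := fun i x y hxy => by have := hexp i x y hxy; linarith
  obtain ⟨σ, hσ⟩ := hπ.hasRightInverse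
  set J := Icc (-1 / 2 : ℝ) (1 / 2) with hJ'
  let Xs : H → Fin 2 × Bool → Set ℝ := fun g s =>
    coc h I (σ g)⁻¹ ⁻¹' {γ | γ⁻¹ ∈ FreeGroup.startsWith s}
  let u : H → Fin 2 × Bool → ℝ := fun g s => volume.real (J ∩ Xs g s)
  have hJ1 : volume.real J = 1 := by
    rw [hJ', Measure.real, Real.volume_Icc, ENNReal.toReal_ofReal] <;> norm_num
  have hJt : volume J ≠ ⊤ := by simp [hJ']
  have hsum : ∀ g, ∑ s, u g s ≤ 1 := by
    intro g
    rw [← measureReal_biUnion_finset, ← hJ1]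
    · refine measureReal_mono ?_ hJt
      simp
    · intro s _ s' _ hs
      refine Disjoint.mono inter_subset_right inter_subset_right (Disjoint.preimage _ ?_)
      exact (FreeGroup.startsWith.disjoint_iff_ne.2 hs).preimage fun γ : F => γ⁻¹
    · exact fun s _ => measurableSet_Icc.inter (coc_meas hm hI _ _)
  have hstep : ∀ i g, 3 / 4 ≤ u g (i, false) + u (π (FreeGroup.of i) * g) (i, true) := by
    intro i g
    have e : FreeGroup.lift h (σ (π (FreeGroup.of i) * g))⁻¹ =
        FreeGroup.lift h ((σ g)⁻¹ * (FreeGroup.of i)⁻¹) := by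
      rw [← mul_inv_eq_one, ← map_inv, ← map_mul]
      apply hker
      simp [hσ g, hσ (π (FreeGroup.of i) * g)]
    refine vol_step (hexp i) (hd i) (hfin _ _ e) fun x hx hE hX => ?_
    simp only [mem_ofPred_eq, not_not] at hE
    have e2 : FreeGroup.lift h (FreeGroup.of i)⁻¹ (h i x) = x := by simp
    simp only [Xs, mem_preimage, mem_ofPred_eq] at hX ⊢
    rw [hE, coc_mul, coc_inv (FreeGroup.of i), e2, coc_of, if_pos (hJ i hx), mul_inv_rev, inv_inv]
    exact FreeGroup.startsWith_mk_mul (w := (i, true)) _ hX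
  have hu0 : ∀ g s, 0 ≤ u g s := fun g s => measureReal_nonneg
  refine no_mean_real m h0 h1 hadd hinv (fun i g => u g (i, true)) (fun i g => ⟨hu0 _ _, ?_⟩)
    (fun i => π (FreeGroup.of i)) fun g => ?_
  · exact (Finset.single_le_sum (fun s _ => hu0 g s) (Finset.mem_univ _)).trans (hsum g)
  · have a1 := hsum g
    have a2 := hstep 0 g
    have a3 := hstep 1 g
    simp only [Fintype.sum_prod_type, Fin.sum_univ_two, Fintype.sum_bool] at a1 ⊢
    linarith

end Pool.Agent.H610Z.C2
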