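import Pool.Agent.H610Z.C2.PW

/-! The projective action of `GL₂(ℝ)` as a model, and a free subgroup. -/

set_option autoImplicit false
open Set Filter Topology
open scoped commutatorElement

namespace Pool.Agent.H610Z.C2

open Matrix Matrix.GeneralLinearGroup Polynomial Cardinal
open scoped MatrixGroups Pointwise OnePoint

abbrev G2 := GL (Fin 2) ℝ

theorem upper_metab (ψ : F →* G2) (h : ∀ w, ψ w • (∞ : OnePoint ℝ) = ∞) :
    ∀ w ∈ derivedSeries F 2, ψ w = 1 := by
  refine derived_two_eq_one ψ (upperRightHom (R := ℝ)).toMonoidHom.range (fun u v => ?_) ?_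
  · have hk := OnePoint.smul_infty_eq_self_iff.1 (h ⁅u, v⁆)
    have hu := OnePoint.smul_infty_eq_self_iff.1 (h u)
    have hv := OnePoint.smul_infty_eq_self_iff.1 (h v)
    rw [map_commutatorElement] at hk
    have e : ⁅ψ u, ψ v⁆ * (ψ v * ψ u) = ψ u * ψ v := by rw [commutatorElement_def]; group
    have du := (ψ u).det_ne_zero
    have dv := (ψ v).det_ne_zero
    rw [Matrix.det_fin_two] at du dv
    simp only [hu, hv, mul_zero, sub_zero, ne_eq, mul_eq_zero, not_or] at du dv
    have e0 := congrArg (fun g : G2 => g 0 0) e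
    have e1 := congrArg (fun g : G2 => g 1 1) e
    simp only [Units.val_mul, Matrix.mul_apply, Fin.sum_univ_two, hk, hu, hv] at e0 e1
    have k0 : (⁅ψ u, ψ v⁆ : G2) 0 0 = 1 := by
      apply mul_right_cancel₀ (mul_ne_zero dv.1 du.1); linarith
    have k1 : (⁅ψ u, ψ v⁆ : G2) 1 1 = 1 := by
      apply mul_right_cancel₀ (mul_ne_zero dv.2 du.2); linarith
    refine ⟨Multiplicative.ofAdd ((⁅ψ u, ψ v⁆ : G2) 0 1), ?_⟩
    ext i j
    fin_cases i <;> fin_cases j <;> simp [hk, k0, k1]
  · rintro _ ⟨x, rfl⟩ _ ⟨y, rfl⟩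
    rw [← map_mul, ← map_mul, mul_comm]

theorem model_G2 : Model G2 ((↑) : ℝ → OnePoint ℝ) where
  inj := OnePoint.coe_injective
  fin := fun γ => by
    by_cases h : γ.fixpointPolynomial = 0
    · left
      intro x
      rw [← fixpointPolynomial_aeval_eq_zero_iff, h, map_zero]
    · right
      refine (Polynomial.finite_setOfPred_isRoot h).subset fun x hx => ?_
      have := fixpointPolynomial_aeval_eq_zero_iff.2 hx
      rwa [coe_aeval_eq_eval] at this
  metab := fun p ψ h w hw => by
    let M : G2 := mkOfDetNeZero !![p, 1; 1, 0] (by simp [Matrix.det_fin_two])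
    have hM : M • (∞ : OnePoint ℝ) = (p : ℝ) := by
      rw [OnePoint.smul_infty_eq_ite]; simp [M]
    have := upper_metab ((MulAut.conj M⁻¹).toMonoidHom.comp ψ) (fun k => by
      simp only [MonoidHom.comp_apply, MulEquiv.coe_toMonoidHom, MulAut.conj_apply, inv_inv,
        mul_smul, hM, h k]
      rw [← hM, inv_smul_smul]) w hw
    have h2 : M⁻¹ * ψ w * M = 1 := by simpa using this
    calc ψ w = M * (M⁻¹ * ψ w * M) * M⁻¹ := by group
      _ = 1 := by rw [h2]; group

/-- Elementary matrices. -/
def el {P : Type} [CommRing P] (i : Fin 2) (c : P) : SL(2, P) :=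
  ⟨if i = 0 then !![1, c; 0, 1] else !![1, 0; c, 1], by
    split_ifs <;> simp [Matrix.det_fin_two]⟩

theorem el_mul {P : Type} [CommRing P] (i : Fin 2) (c c' : P) :
    el i c * el i c' = el i (c + c') := by
  apply Subtype.ext
  change (el i c).1 * (el i c').1 = (el i (c + c')).1
  fin_cases i <;> simp [el, add_comm]

theorem el_zero {P : Type} [CommRing P] (i : Fin 2) : el i (0 : P) = 1 := by
  apply Subtype.ext
  fin_cases i <;> simp [el, Matrix.one_fin_two]

theorem el_zpow {P : Type} [CommRing P] (i : Fin 2) (c : P) (n : ℤ) :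
    el i c ^ n = el i (n * c) := by
  let f : Multiplicative P →* SL(2, P) :=
    { toFun := fun c => el i c.toAdd
      map_one' := el_zero i
      map_mul' := fun a b => (el_mul i a.toAdd b.toAdd).symm }
  have h := map_zpow f (Multiplicative.ofAdd c) n
  have h1 : f (Multiplicative.ofAdd c) = el i c := rfl
  rw [h1] at h
  rw [← h]
  change el i _ = _
  simp

theorem el_map {P Q : Type} [CommRing P] [CommRing Q] (φ : P →+* Q) (i : Fin 2) (c : P) :
    SpecialLinearGroup.map φ (el i c) = el i (φ c) := by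
  apply Subtype.ext
  change φ.mapMatrix (el i c).1 = (el i (φ c)).1
  ext k j
  fin_cases i <;> fin_cases k <;> fin_cases j <;> simp [el]

theorem el_smul {P : Type} [CommRing P] (i : Fin 2) (c : P) (v : Fin 2 → P) :
    (el i c • v) i = v i + c * v (i + 1) ∧ (el i c • v) (i + 1) = v (i + 1) := by
  change ((el i c).1 *ᵥ v) i = _ ∧ ((el i c).1 *ᵥ v) (i + 1) = _
  fin_cases i <;> (simp [el, vecHead, vecTail]; try ring)

theorem injective_el :
    Function.Injective (FreeGroup.lift fun i : Fin 2 => (el i (X : ℤ[X]) : SL(2, ℤ[X]))) := by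
  set a : Fin 2 → SL(2, ℤ[X]) := fun i => el i (X : ℤ[X]) with ha
  have : FreeGroup.lift a =
      (Monoid.CoprodI.lift fun i => FreeGroup.lift fun _ => a i).comp
        (@freeGroupEquivCoprodI (Fin 2)).toMonoidHom := by
    ext i
    simp
  rw [this, MonoidHom.coe_comp]
  clear this
  refine Function.Injective.comp ?_ (MulEquiv.injective freeGroupEquivCoprodI)
  let H : Fin 2 → Type _ := fun _i => FreeGroup Unit
  let f : ∀ i, H i →* SL(2, ℤ[X]) := fun i => FreeGroup.lift fun _ => a i
  let Y : Fin 2 → Set (Fin 2 → ℤ[X]) := fun i => {v | (v (i + 1)).degree < (v i).degree}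
  have hne : ∀ i j : Fin 2, i ≠ j → j = i + 1 ∧ j + 1 = i := by decide
  apply Monoid.CoprodI.lift_injective_of_ping_pong f _ Y
  · intro i
    refine ⟨Pi.single i 1, ?_⟩
    fin_cases i <;> simp [Y]
  · intro i j hij
    change Disjoint (Y i) (Y j)
    rw [Set.disjoint_left]
    intro v hi hj
    have hi' : (v (i + 1)).degree < (v i).degree := hi
    have hj' : (v (j + 1)).degree < (v j).degree := hj
    rw [(hne i j hij).2, (hne i j hij).1] at hj'
    exact lt_asymm hi' hj'
  · intro i j hij
    refine FreeGroup.freeGroupUnitEquivInt.forall_congr_left.mpr ?_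
    intro n hne1
    change FreeGroup.lift (fun _ => a i) (FreeGroup.of () ^ n) • Y j ⊆ Y i
    simp only [map_zpow, FreeGroup.lift_apply_of]
    have hnne0 : n ≠ 0 := by
      rintro rfl
      apply hne1
      simp [H, FreeGroup.freeGroupUnitEquivInt]
    rintro _ ⟨v, hv, rfl⟩
    have hv' : (v (j + 1)).degree < (v j).degree := hv
    rw [(hne i j hij).2, (hne i j hij).1] at hv'
    have hv1 : v (i + 1) ≠ 0 := by
      intro h
      rw [h, degree_zero] at hv'
      exact not_lt_bot hv'
    change ((a i ^ n • v) (i + 1)).degree < ((a i ^ n • v) i).degree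
    simp only [ha, el_zpow]
    obtain ⟨e0, e1⟩ := el_smul i ((n : ℤ[X]) * X) v
    rw [e0, e1]
    have hn : ((n : ℤ[X]) * X * v (i + 1)).degree = 1 + (v (i + 1)).degree := by
      have : (n : ℤ[X]) = C n := by simp
      rw [degree_mul, degree_mul, this, degree_C hnne0, degree_X, zero_add]
    have hlt : (v (i + 1)).degree < 1 + (v (i + 1)).degree := by
      rw [degree_eq_natDegree hv1]
      exact_mod_cast Nat.lt_one_add_iff.mpr le_rfl
    rw [degree_add_eq_right_of_degree_lt, hn]
    · exact hlt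
    · rw [hn]; exact hv'.trans hlt
  · right
    refine ⟨0, ?_⟩
    have : #(H 0) = ℵ₀ := by
      rw [Cardinal.mk_congr FreeGroup.freeGroupUnitEquivInt]
      simp
    rw [this]
    exact_mod_cast (Cardinal.natCast_lt_aleph0 (n := 3)).le

theorem injective_el_real {t : ℝ} (ht : Transcendental ℤ t) :
    Function.Injective (FreeGroup.lift fun i : Fin 2 => (el i t : SL(2, ℝ))) := by
  have h1 : Function.Injective (aeval t : ℤ[X] →ₐ[ℤ] ℝ) := transcendental_iff_injective.1 ht
  have e : (FreeGroup.lift fun i : Fin 2 => (el i t : SL(2, ℝ))) =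
      (SpecialLinearGroup.map (aeval t : ℤ[X] →ₐ[ℤ] ℝ).toRingHom).comp
        (FreeGroup.lift fun i : Fin 2 => (el i (X : ℤ[X]) : SL(2, ℤ[X]))) := by
    ext1 i
    simp [el_map]
  rw [e, MonoidHom.coe_comp]
  refine Function.Injective.comp (fun g h hgh => ?_) injective_el
  refine Matrix.SpecialLinearGroup.ext _ _ fun i j => h1 ?_
  exact congrArg (fun k : SL(2, ℝ) => k i j) hgh

/-- The representation sending the generators to `A` and `A * B`. -/
noncomputable def rho (t : ℝ) : F →* G2 :=
  (SpecialLinearGroup.toGL.comp (FreeGroup.lift fun i : Fin 2 => (el i t : SL(2, ℝ)))).comp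
    (FreeGroup.lift fun i : Fin 2 =>
      if i = 0 then FreeGroup.of 0 else FreeGroup.of 0 * FreeGroup.of 1)

theorem rho_injective {t : ℝ} (ht : Transcendental ℤ t) : Function.Injective (rho t) := by
  rw [rho, MonoidHom.coe_comp, MonoidHom.coe_comp]
  refine (SpecialLinearGroup.toGL_injective.comp (injective_el_real ht)).comp ?_
  let β : F →* F := FreeGroup.lift fun i : Fin 2 =>
      if i = 0 then FreeGroup.of 0 else (FreeGroup.of 0)⁻¹ * FreeGroup.of 1
  have : β.comp (FreeGroup.lift fun i : Fin 2 =>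
      if i = 0 then FreeGroup.of 0 else FreeGroup.of 0 * FreeGroup.of 1) = MonoidHom.id F := by
    ext1 i
    fin_cases i <;> simp [β]
  exact Function.LeftInverse.injective (g := β) fun w => DFunLike.congr_fun this w

theorem rho_det (t : ℝ) (w : F) : (rho t w : Matrix (Fin 2) (Fin 2) ℝ).det = 1 :=
  Matrix.SpecialLinearGroup.det_coe _

theorem rho_fix_finite {t : ℝ} (ht : Transcendental ℤ t) {w : F} (hw : w ≠ 1) :
    {x : ℝ | rho t w • (x : OnePoint ℝ) = x}.Finite := by
  refine (model_G2.fin (rho t w)).resolve_left fun h => hw ?_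
  have h1 : (rho t w).fixpointPolynomial = 0 := by
    apply Polynomial.funext
    intro x
    have := fixpointPolynomial_aeval_eq_zero_iff.2 (h x)
    rwa [coe_aeval_eq_eval, ← eval_zero (x := x)] at this
  obtain ⟨c, hc⟩ := fixpointPolynomial_eq_zero_iff.1 h1
  have h2 := rho_det t w
  rw [← hc] at h2
  have h3 : c * c = 1 := by
    rw [Matrix.det_fin_two] at h2
    simpa using h2
  have h4 : rho t (w ^ 2) = rho t 1 := by
    rw [map_pow, map_one, sq]
    ext1
    rw [Units.val_mul, ← hc, ← map_mul, h3, map_one, Units.val_one]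
  exact (pow_eq_one_iff_left (by norm_num)).1 (rho_injective ht h4)

theorem rho_zero (t x : ℝ) : rho t (FreeGroup.of 0) • (x : OnePoint ℝ) = (x + t : ℝ) := by
  rw [OnePoint.smul_some_eq_ite]
  simp [rho, el]

theorem rho_one (t x : ℝ) (h : t * x + 1 ≠ 0) :
    rho t (FreeGroup.of 1) • (x : OnePoint ℝ) = (x / (t * x + 1) + t : ℝ) := by
  rw [OnePoint.smul_some_eq_ite]
  simp [rho, el, h, Matrix.mul_apply]
  field_simp
  ring

theorem exists_small_transcendental : ∃ t : ℝ, 0 < t ∧ t < 1 / 20 ∧ Transcendental ℤ t := by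
  by_contra h
  push Not at h
  have h1 : Ioo (0 : ℝ) (1 / 20) ⊆ {x | IsAlgebraic ℤ x} := fun x hx => by
    have := h x hx.1 hx.2
    rwa [Transcendental, not_not] at this
  have h2 := (Algebraic.countable ℤ ℝ).mono h1
  have h3 := h2.measure_zero MeasureTheory.volume
  simp at h3

end Pool.Agent.H610Z.C2
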