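import Pool.Agent.H610Z.C2.Block
import Pool.Agent.H610Z.C2.Mean
import Pool.Agent.H610Z.C2.Mob

/-! A nonamenable group of `C²` diffeomorphisms of the line without free subgroups. -/

set_option autoImplicit false
open Set Filter Topology

namespace Pool.Agent.H610Z.C2

theorem glue (o : ℕ → ℤ) (ho : StrictMono o) (φ : ℕ → F →* Equiv.Perm ℝ)
    (hφ : ∀ n w, φ n w ∈ Diff2) (hs : ∀ n w (x : ℝ), x ≤ o n ∨ o (n + 1) ≤ x → φ n w x = x) :
    ∃ Φ : F →* Equiv.Perm ℝ, (∀ w, Φ w ∈ Diff2) ∧ ∀ w, Φ w = 1 ↔ ∀ n, φ n w = 1 := by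
  classical
  have ho' : Monotone fun n => (o n : ℝ) := fun a b hab => Int.cast_le.2 (ho.monotone hab)
  have hex : ∀ x : ℝ, ∃ n, x < o (n + 1) := by
    intro x
    have h1 : ∀ n : ℕ, (o 0 : ℝ) + n ≤ o n := by
      intro n
      induction n with
      | zero => simp
      | succ n ih =>
        have : ((o n + 1 : ℤ) : ℝ) ≤ o (n + 1) := Int.cast_le.2 (ho (Nat.lt_succ_self n))
        push_cast at this ⊢; linarith
    obtain ⟨n, hn⟩ := exists_nat_gt (x - o 0)
    have := h1 (n + 1)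
    push_cast at this
    exact ⟨n, by linarith⟩
  let idx : ℝ → ℕ := fun x => Nat.find (hex x)
  have i1 : ∀ x, x < o (idx x + 1) := fun x => Nat.find_spec (hex x)
  have i2 : ∀ x n, n < idx x → (o (n + 1) : ℝ) ≤ x := fun x n hn =>
    not_lt.1 (Nat.find_min (hex x) hn)
  have i3 : ∀ (x : ℝ) n, x < o (n + 1) → idx x ≤ n := fun x n hn => Nat.find_min' (hex x) hn
  have i4 : ∀ w x, idx (φ (idx x) w x) = idx x := by
    intro w x
    refine (Nat.find_eq_iff _).2 ⟨?_, fun m hm => not_lt.2 ?_⟩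
    · have := (hφ (idx x) w).1 (i1 x)
      rwa [hs _ w (o (idx x + 1)) (Or.inr le_rfl)] at this
    · have := (hφ (idx x) w).1.monotone (i2 x m hm)
      rwa [hs _ w (o (m + 1)) (Or.inl (ho' hm))] at this
  have i5 : ∀ w x m, m ≠ idx x → φ m w x = x := by
    intro w x m hm
    rcases lt_or_gt_of_ne hm with h | h
    · exact hs _ _ _ (Or.inr (i2 x m h))
    · exact hs _ _ _ (Or.inl ((i1 x).le.trans (ho' h)))
  let P : F → ℝ → ℝ := fun w x => φ (idx x) w x
  have P1 : ∀ u v x, P u (P v x) = P (u * v) x := fun u v x => by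
    simp only [P]; rw [i4, map_mul, Equiv.Perm.mul_apply]
  have P2 : ∀ x, P 1 x = x := fun x => by simp [P]
  have P3 : ∀ w, ContDiff ℝ 2 (P w) := by
    intro w
    rw [contDiff_iff_contDiffAt]
    intro x
    have h1 : ContDiff ℝ 2 fun y => y + ∑ m ∈ Finset.range (idx x + 1), (φ m w y - y) :=
      contDiff_id.add (ContDiff.sum fun m _ => (hφ m w).2.1.sub contDiff_id)
    refine h1.contDiffAt.congr_of_eventuallyEq ?_
    filter_upwards [Iio_mem_nhds (i1 x)] with y hy
    rw [Finset.sum_eq_single_of_mem (idx y) (Finset.mem_range.2 (Nat.lt_succ_of_le (i3 y _ hy)))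
      fun m _ hm => by rw [i5 w y m hm, sub_self]]
    simp [P]
  have P4 : ∀ w, StrictMono (P w) := by
    intro w x y hxy
    have h1 : idx x ≤ idx y := i3 x _ (hxy.trans (i1 y))
    rcases h1.eq_or_lt with h | h
    · simp only [P]; rw [h]; exact (hφ _ w).1 hxy
    · have a1 := i1 (P w x)
      have a2 := i2 (P w y) (idx x) (by rwa [i4])
      rw [i4] at a1
      exact a1.trans_le a2
  let Φ : F →* Equiv.Perm ℝ := MonoidHom.mk' (fun w => ⟨P w, P w⁻¹,
    fun x => by rw [P1, inv_mul_cancel, P2], fun x => by rw [P1, mul_inv_cancel, P2]⟩)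
    fun u v => Equiv.ext fun x => (P1 u v x).symm
  refine ⟨Φ, fun w => ⟨P4 w, P3 w, P3 w⁻¹⟩, fun w => ⟨fun h n => Equiv.ext fun x => ?_,
    fun h => Equiv.ext fun x => ?_⟩⟩
  · by_cases hn : n = idx x
    · rw [hn]; exact DFunLike.congr_fun h x
    · exact i5 w x n hn
  · change φ (idx x) w x = _
    rw [h]

theorem no_free (L : F →* Equiv.Perm ℝ) (hL : ∀ w, L w ∈ PWG G2 ((↑) : ℝ → OnePoint ℝ))
    (φ : ℕ → F →* Equiv.Perm ℝ) (hφ : ∀ n w, φ n w ∈ WG)
    (h : ∀ w, L w = 1 → ∃ m, ∀ n, m ≤ n → φ n w = 1) : ∃ w, w ≠ 1 ∧ ∀ n, φ n w = 1 := by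
  let N : ℕ → Subgroup F := fun m => derivedSeries F 2 ⊓ ⨅ n : {n // m ≤ n}, (φ n).ker
  have hN : ∀ m, (N m).Normal := fun m => by
    have : (⨅ n : {n // m ≤ n}, (φ n).ker).Normal :=
      Subgroup.normal_iInf_normal fun n => inferInstance
    infer_instance
  have step : ∀ m, N (m + 1) ≠ ⊥ → N m ≠ ⊥ := by
    intro m hm
    have := hN (m + 1)
    have h1 := brin_squier_PWG model_Aff (φ m) (fun w => (hφ m w).2) (N (m + 1)) inf_le_left hm
    refine fun h0 => h1 (le_bot_iff.1 (h0 ▸ ?_))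
    rintro w ⟨⟨a, b⟩, c⟩
    refine ⟨a, Subgroup.mem_iInf.2 fun n => ?_⟩
    rcases n.2.eq_or_lt with e | e
    · rw [← e]; exact c
    · exact Subgroup.mem_iInf.1 b ⟨n, e⟩
  have down : ∀ m, N m ≠ ⊥ → N 0 ≠ ⊥ := by
    intro m
    induction m with
    | zero => exact id
    | succ m ih => exact fun hm => ih (step m hm)
  obtain ⟨⟨w, hw1, hw2⟩, hw⟩ := Subgroup.ne_bot_iff_exists_ne_one.1
    (brin_squier_PWG model_G2 L hL (derivedSeries F 2) le_rfl derived_two_ne_bot)
  obtain ⟨m, hm⟩ := h w hw2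
  obtain ⟨⟨v, hv1, hv2⟩, hv⟩ := Subgroup.ne_bot_iff_exists_ne_one.1 (down m
    (Subgroup.ne_bot_iff_exists_ne_one.2 ⟨⟨w, hw1, Subgroup.mem_iInf.2 fun n => hm n n.2⟩,
      fun e => hw (Subtype.ext (show w = 1 from congrArg Subtype.val e))⟩))
  exact ⟨v, fun e => hv (Subtype.ext e), fun n => Subgroup.mem_iInf.1 hv2 ⟨n, Nat.zero_le n⟩⟩

theorem main : ∃ H : Subgroup (Equiv.Perm ℝ), H ≤ Diff2 ∧
    (¬ ∃ m : Set H → ℝ, (∀ A : Set H, 0 ≤ m A) ∧ m Set.univ = 1 ∧
      (∀ A B : Set H, Disjoint A B → m (A ∪ B) = m A + m B) ∧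
      (∀ (g : H) (A : Set H), m ((fun x => g * x) ⁻¹' A) = m A)) ∧
    (¬ ∃ f : F →* H, Function.Injective f) := by
  obtain ⟨t, t0, t1, ht⟩ := exists_small_transcendental
  obtain ⟨p, q, b, hp, hq, b1, b2, b3, b4, b5⟩ := exists_bump t0 t1
  have hpq : p < q := by linarith
  let h : Fin 2 → Equiv.Perm ℝ := ![Equiv.addRight t, b]
  have hexp : ∀ i x y, x < y → 4 / 5 * (y - x) ≤ h i y - h i x := by
    intro i x y hxy
    fin_cases i
    · change 4 / 5 * (y - x) ≤ (y + t) - (x + t)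
      linarith
    · exact b4 x y hxy
  have hd : ∀ i x, x ≤ h i x ∧ h i x ≤ x + 1 / 20 := by
    intro i x
    fin_cases i
    · change x ≤ x + t ∧ x + t ≤ x + 1 / 20
      constructor <;> linarith
    · exact b5 x
  have hm : ∀ i, StrictMono (h i) := fun i x y hxy => by have := hexp i x y hxy; linarith
  have hb : ∀ x, x ∉ Ioo p q → h 1 x = x := fun x hx => by
    rcases le_or_gt x p with c | c
    · exact b1 x c
    · exact b2 x (not_lt.1 fun d => hx ⟨c, d⟩)
  have hr : ∀ x, p ≤ x → x ≤ q → rho t (FreeGroup.of 1) • (x : OnePoint ℝ) = (b x : ℝ) :=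
    fun x c d => by rw [rho_one t x (b3 x c d).1, (b3 x c d).2]
  have hfin : ∀ w w' : F, FreeGroup.lift h w = FreeGroup.lift h w' →
      {x | coc h ![univ, Ioo p q] w x ≠ coc h ![univ, Ioo p q] w' x}.Finite := fun w w' e =>
    coc_cofinite (rho t) ((↑) : ℝ → OnePoint ℝ) (fun i x hx => by
      fin_cases i
      · exact rho_zero t x
      · exact hr x hx.1.le hx.2.le) (fun i x hx => by
      fin_cases i
      · simp at hx
      · exact hb x hx) (fun γ hγ => rho_fix_finite ht hγ) e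
  have hL : ∀ w, FreeGroup.lift h w ∈ PWG G2 ((↑) : ℝ → OnePoint ℝ) := lift_mem _ fun i => by
    fin_cases i
    · exact mem_PWG_of_three (hm 0) hpq _ _ _ t t (fun x _ => rho_zero t x)
        (fun x _ _ => rho_zero t x) (fun x _ => rho_zero t x) (fun _ _ => rfl) (fun _ _ => rfl)
    · exact mem_PWG_of_three (hm 1) hpq 1 _ 1 0 0
        (fun x hx => by rw [one_smul]; exact congrArg _ (b1 x hx).symm) hr
        (fun x hx => by rw [one_smul]; exact congrArg _ (b2 x hx).symm)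
        (fun x hx => by rw [add_zero]; exact b1 x hx) (fun x hx => by rw [add_zero]; exact b2 x hx)
  obtain ⟨r, hr'⟩ := exists_surjective_nat ℚ
  choose o' ho' φ' f1 f2 f3 f4 using fun n o => block h hm p q hpq hb (fun w hw => by
    simpa only [coc_one] using hfin w 1 (by rw [hw, map_one]))
    ((Finset.range n).image fun i => (r i : ℝ)) n o
  let o : ℕ → ℤ := fun n => Nat.rec 0 (fun n a => o' n a) n
  obtain ⟨Φ, g1, g2⟩ := glue o (strictMono_nat_of_lt_succ fun n => ho' n (o n))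
    (fun n => φ' n (o n)) (fun n w => (f1 n _ w).1) fun n w x hx => f2 n _ w x hx
  refine ⟨Φ.range, by rintro _ ⟨w, rfl⟩; exact g1 w, ?_, ?_⟩
  · rintro ⟨m, m0, m1, m2, m3⟩
    refine no_mean hexp hd (fun i => ?_) (fun i => ?_) hfin Φ.rangeRestrict
      Φ.rangeRestrict_surjective (fun w hw => ?_) m m0 m1 m2 m3
    · fin_cases i
      · exact MeasurableSet.univ
      · exact measurableSet_Ioo
    · fin_cases i
      · exact subset_univ _
      · exact fun x hx => ⟨by linarith [hx.1], by linarith [hx.2]⟩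
    · have h1 := (g2 w).1 (congrArg Subtype.val hw)
      refine Equiv.ext (eq_of_rat_fixed (lift_mono hm w) fun z => ?_)
      obtain ⟨i, rfl⟩ := hr' z
      exact f4 (i + 1 + w.toWord.length) _ w (h1 _) (by omega) _
        (Finset.mem_image.2 ⟨i, Finset.mem_range.2 (by omega), rfl⟩)
  · rintro ⟨f, hf⟩
    choose s hs using fun i => Φ.rangeRestrict_surjective (f (FreeGroup.of i))
    have e : Φ.rangeRestrict.comp (FreeGroup.lift s) = f := by
      ext1 i; simp [hs]
    obtain ⟨w, hw, hw'⟩ := no_free ((FreeGroup.lift h).comp (FreeGroup.lift s)) (fun w => hL _)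
      (fun n => (φ' n (o n)).comp (FreeGroup.lift s)) (fun n w => f1 n _ _)
      fun w hw => ⟨_, fun n hn => f3 n _ _ hw hn⟩
    apply hw
    apply hf
    rw [map_one, ← e]
    exact Subtype.ext ((g2 _).2 hw')

end Pool.Agent.H610Z.C2
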