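import Pool.Agent.H610Z.C2.BS

/-! Groups of piecewise defined homeomorphisms of the line. -/

set_option autoImplicit false
open Set Filter Topology
open scoped commutatorElement

namespace Pool.Agent.H610Z.C2

variable {G X : Type} [Group G] [MulAction G X]

/-- A group acting on a set containing the line, with small fixed sets and metabelian
point stabilisers. -/
structure Model (G : Type) {X : Type} [Group G] [MulAction G X] (ι : ℝ → X) : Prop where
  inj : Function.Injective ι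
  fin : ∀ γ : G, (∀ x : ℝ, γ • ι x = ι x) ∨ {x : ℝ | γ • ι x = ι x}.Finite
  metab : ∀ p : ℝ, ∀ ψ : F →* G, (∀ w, ψ w • ι p = ι p) → ∀ w ∈ derivedSeries F 2, ψ w = 1

theorem derived_two_eq_one (ψ : F →* G) (U : Subgroup G) (h1 : ∀ u v, ⁅ψ u, ψ v⁆ ∈ U)
    (h2 : ∀ u ∈ U, ∀ v ∈ U, u * v = v * u) : ∀ w ∈ derivedSeries F 2, ψ w = 1 := by
  have a1 : derivedSeries F 1 ≤ U.comap ψ := by
    rw [derivedSeries_succ, Subgroup.commutator_le]
    intro u _ v _
    rw [Subgroup.mem_comap, map_commutatorElement]; exact h1 u v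
  have a2 : derivedSeries F 2 ≤ ψ.ker := by
    rw [derivedSeries_succ, Subgroup.commutator_le]
    intro u hu v hv
    rw [MonoidHom.mem_ker, map_commutatorElement, commutatorElement_eq_one_iff_mul_comm]
    exact h2 _ (a1 hu) _ (a1 hv)
  exact fun w hw => a2 hw

def Ger (G : Type) {X : Type} [Group G] [MulAction G X] (ι : ℝ → X) (l : Filter ℝ)
    (h : Equiv.Perm ℝ) : Prop := ∃ γ : G, ∀ᶠ x in l, γ • ι x = ι (h x)

def Tr (l : Filter ℝ) (h : Equiv.Perm ℝ) : Prop := ∃ s : ℝ, ∀ᶠ x in l, h x = x + s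

theorem Ger.mul {ι : ℝ → X} {l l' : Filter ℝ} {h h' : Equiv.Perm ℝ} (a : Ger G ι l h)
    (b : Ger G ι l' h') (t : Tendsto h l l') : Ger G ι l (h' * h) := by
  obtain ⟨γ, hγ⟩ := a
  obtain ⟨γ', hγ'⟩ := b
  refine ⟨γ' * γ, ?_⟩
  filter_upwards [hγ, t.eventually hγ'] with x h1 h2
  rw [mul_smul, h1, h2, Equiv.Perm.mul_apply]

theorem Ger.inv {ι : ℝ → X} {l l' : Filter ℝ} {h : Equiv.Perm ℝ} (a : Ger G ι l h)
    (t : Tendsto (h⁻¹ : Equiv.Perm ℝ) l' l) : Ger G ι l' h⁻¹ := by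
  obtain ⟨γ, hγ⟩ := a
  refine ⟨γ⁻¹, ?_⟩
  filter_upwards [t.eventually hγ] with x h1
  rw [inv_smul_eq_iff, h1]; simp

theorem Tr.mul {l : Filter ℝ} {h h' : Equiv.Perm ℝ} (a : Tr l h) (b : Tr l h')
    (t : Tendsto h l l) : Tr l (h' * h) := by
  obtain ⟨γ, hγ⟩ := a
  obtain ⟨γ', hγ'⟩ := b
  refine ⟨γ + γ', ?_⟩
  filter_upwards [hγ, t.eventually hγ'] with x h1 h2
  rw [Equiv.Perm.mul_apply, h2, h1]; ring

theorem Tr.inv {l : Filter ℝ} {h : Equiv.Perm ℝ} (a : Tr l h)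
    (t : Tendsto (h⁻¹ : Equiv.Perm ℝ) l l) : Tr l h⁻¹ := by
  obtain ⟨γ, hγ⟩ := a
  refine ⟨-γ, ?_⟩
  filter_upwards [t.eventually hγ] with x h1
  simp only [Equiv.Perm.coe_inv, Equiv.apply_symm_apply] at h1 ⊢
  linarith

theorem tendsto_right {h : Equiv.Perm ℝ} (hm : StrictMono h) (p : ℝ) :
    Tendsto h (𝓝[≥] p) (𝓝[≥] (h p)) :=
  (continuous_of_strictMono hm).continuousWithinAt.tendsto_nhdsWithin
    fun _ hx => hm.monotone hx

theorem tendsto_left {h : Equiv.Perm ℝ} (hm : StrictMono h) (p : ℝ) :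
    Tendsto h (𝓝[≤] p) (𝓝[≤] (h p)) :=
  (continuous_of_strictMono hm).continuousWithinAt.tendsto_nhdsWithin
    fun _ hx => hm.monotone hx

theorem tendsto_top {h : Equiv.Perm ℝ} (hm : StrictMono h) : Tendsto h atTop atTop :=
  (hm.orderIsoOfSurjective h h.surjective).tendsto_atTop

theorem tendsto_bot {h : Equiv.Perm ℝ} (hm : StrictMono h) : Tendsto h atBot atBot :=
  (hm.orderIsoOfSurjective h h.surjective).tendsto_atBot

/-- Increasing bijections of the line which are piecewise given by elements of `G` and are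
translations near infinity. -/
def PWG (G : Type) {X : Type} [Group G] [MulAction G X] (ι : ℝ → X) :
    Subgroup (Equiv.Perm ℝ) where
  carrier := {h | StrictMono h ∧ (∀ p, Ger G ι (𝓝[≥] p) h) ∧ (∀ p, Ger G ι (𝓝[≤] p) h) ∧
    (∃ E : Set ℝ, E.Finite ∧ ∀ p, p ∉ E → Ger G ι (𝓝 p) h) ∧ Tr atTop h ∧ Tr atBot h}
  one_mem' := ⟨strictMono_id, fun _ => ⟨1, by simp⟩, fun _ => ⟨1, by simp⟩,
    ⟨∅, finite_empty, fun _ _ => ⟨1, by simp⟩⟩, ⟨0, by simp⟩, ⟨0, by simp⟩⟩
  mul_mem' := by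
    rintro h' h ⟨a0, a1, a2, ⟨E', a3, a4⟩, a5, a6⟩ ⟨b0, b1, b2, ⟨E, b3, b4⟩, b5, b6⟩
    refine ⟨a0.comp b0, fun p => (b1 p).mul (a1 _) (tendsto_right b0 p),
      fun p => (b2 p).mul (a2 _) (tendsto_left b0 p),
      ⟨E ∪ h ⁻¹' E', b3.union (a3.preimage h.injective.injOn), fun p hp => ?_⟩,
      b5.mul a5 (tendsto_top b0), b6.mul a6 (tendsto_bot b0)⟩
    exact (b4 p fun h => hp (Or.inl h)).mul (a4 _ fun h => hp (Or.inr h))
      (continuous_of_strictMono b0).continuousAt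
  inv_mem' := by
    rintro h ⟨b0, b1, b2, ⟨E, b3, b4⟩, b5, b6⟩
    have c0 := strictMono_inv b0
    refine ⟨c0, fun p => (b1 _).inv (tendsto_right c0 p), fun p => (b2 _).inv (tendsto_left c0 p),
      ⟨(h⁻¹ : Equiv.Perm ℝ) ⁻¹' E, b3.preimage (h⁻¹).injective.injOn, fun p hp => ?_⟩,
      b5.inv (tendsto_top c0), b6.inv (tendsto_bot c0)⟩
    exact (b4 _ hp).inv (continuous_of_strictMono c0).continuousAt

theorem mem_PWG_of_three {ι : ℝ → X} {h : Equiv.Perm ℝ} (hm : StrictMono h) {p q : ℝ}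
    (hpq : p < q) (γ1 γ2 γ3 : G) (s1 s3 : ℝ) (h1 : ∀ x, x ≤ p → γ1 • ι x = ι (h x))
    (h2 : ∀ x, p ≤ x → x ≤ q → γ2 • ι x = ι (h x)) (h3 : ∀ x, q ≤ x → γ3 • ι x = ι (h x))
    (t1 : ∀ x, x ≤ p → h x = x + s1) (t3 : ∀ x, q ≤ x → h x = x + s3) : h ∈ PWG G ι := by
  have two : ∀ z, z ∉ ({p, q} : Set ℝ) → Ger G ι (𝓝 z) h := by
    intro z hz
    simp only [mem_insert_iff, mem_singleton_iff, not_or] at hz
    rcases lt_or_gt_of_ne hz.1 with a | a
    · exact ⟨γ1, by filter_upwards [Iio_mem_nhds a] with x hx using h1 x (le_of_lt hx)⟩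
    · rcases lt_or_gt_of_ne hz.2 with b | b
      · exact ⟨γ2, by filter_upwards [Ioo_mem_nhds a b] with x hx using h2 x hx.1.le hx.2.le⟩
      · exact ⟨γ3, by filter_upwards [Ioi_mem_nhds b] with x hx using h3 x (le_of_lt hx)⟩
  have res : ∀ z (s : Set ℝ), Ger G ι (𝓝 z) h → Ger G ι (𝓝[s] z) h := fun z s ⟨γ, hγ⟩ =>
    ⟨γ, hγ.filter_mono nhdsWithin_le_nhds⟩
  refine ⟨hm, fun z => ?_, fun z => ?_, ⟨{p, q}, toFinite _, two⟩,
    ⟨s3, by filter_upwards [eventually_ge_atTop q] with x hx using t3 x hx⟩,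
    ⟨s1, by filter_upwards [eventually_le_atBot p] with x hx using t1 x hx⟩⟩
  · by_cases hz : z ∈ ({p, q} : Set ℝ)
    · rcases hz with rfl | rfl
      · exact ⟨γ2, by filter_upwards [Icc_mem_nhdsGE hpq] with x hx using h2 x hx.1 hx.2⟩
      · exact ⟨γ3, by filter_upwards [self_mem_nhdsWithin] with x hx using h3 x hx⟩
    · exact res z _ (two z hz)
  · by_cases hz : z ∈ ({p, q} : Set ℝ)
    · rcases hz with rfl | rfl
      · exact ⟨γ1, by filter_upwards [self_mem_nhdsWithin] with x hx using h1 x hx⟩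
      · exact ⟨γ2, by filter_upwards [Icc_mem_nhdsLE hpq] with x hx using h2 x hx.1 hx.2⟩
    · exact res z _ (two z hz)

theorem germ_hom {ι : ℝ → X} (φ : F →* Equiv.Perm ℝ) (l : Filter ℝ)
    (ht : ∀ w, Tendsto (φ w) l l) (hg : ∀ w, Ger G ι l (φ w)) :
    ∃ ψ : F →* G, ∀ w, ∀ᶠ x in l, ψ w • ι x = ι (φ w x) := by
  choose γ hγ using fun i : Fin 2 => hg (FreeGroup.of i)
  refine ⟨FreeGroup.lift γ, fun w => ?_⟩
  induction w using FreeGroup.induction_on with
  | C1 => simp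
  | of i => simpa using hγ i
  | inv_of i ih =>
    filter_upwards [(ht (FreeGroup.of i)⁻¹).eventually ih] with x hx
    rw [map_inv, inv_smul_eq_iff, hx]; simp
  | mul u v hu hv =>
    filter_upwards [hv, (ht v).eventually hu] with x h1 h2
    rw [map_mul, mul_smul, h1, h2, map_mul, Equiv.Perm.mul_apply]

theorem tr_germ (φ : F →* Equiv.Perm ℝ) (l : Filter ℝ) (ht : ∀ w, Tendsto (φ w) l l)
    (hg : ∀ w, Tr l (φ w)) : ∀ w ∈ derivedSeries F 2, ∀ᶠ y in l, φ w y = y := by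
  have hg' : ∀ w, Ger (Multiplicative ℝ) (id : ℝ → ℝ) l (φ w) := by
    intro w
    obtain ⟨s, hs⟩ := hg w
    refine ⟨Multiplicative.ofAdd s, ?_⟩
    filter_upwards [hs] with x hx
    simp only [id]
    rw [hx, add_comm]; rfl
  obtain ⟨ψ, hψ⟩ := germ_hom φ l ht hg'
  intro w hw
  have := derived_two_eq_one ψ ⊤ (fun _ _ => Subgroup.mem_top _) (fun u _ v _ => mul_comm u v) w hw
  filter_upwards [hψ w] with x hx
  rw [this, one_smul] at hx
  exact hx.symm

theorem brin_squier_PWG {ι : ℝ → X} (M : Model G ι) (φ : F →* Equiv.Perm ℝ)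
    (hφ : ∀ w, φ w ∈ PWG G ι) (N : Subgroup F) [N.Normal] (hN : N ≤ derivedSeries F 2)
    (hN0 : N ≠ ⊥) : N ⊓ φ.ker ≠ ⊥ := by
  have mono : ∀ w, StrictMono (φ w) := fun w => (hφ w).1
  refine brin_squier φ mono (fun w => ?_) (fun w hw p hp => ?_)
    (tr_germ φ _ (fun w => tendsto_top (mono w)) fun w => (hφ w).2.2.2.2.1)
    (tr_germ φ _ (fun w => tendsto_bot (mono w)) fun w => (hφ w).2.2.2.2.2) N hN hN0
  · let D : Set ℝ := {x | φ w x = x ∧ ¬ ∀ᶠ y in 𝓝 x, φ w y = y}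
    suffices hD : D.Finite from ⟨D, hD, fun x hx h => by
      by_contra hn; exact hx ⟨h, hn⟩⟩
    have loc : ∀ (l : Filter ℝ), Ger G ι l (φ w) → ∀ p, l ≤ 𝓝 p →
        (∀ᶠ y in l, φ w y = y) ∨ ∀ᶠ y in l, y ≠ p → φ w y ≠ y := by
      rintro l ⟨γ, hγ⟩ p hl
      rcases M.fin γ with h | h
      · left
        filter_upwards [hγ] with y hy
        exact M.inj (by rw [← hy, h])
      · right
        have hc : IsClosed ({x : ℝ | γ • ι x = ι x} \ {p}) := (h.subset sdiff_subset).isClosed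
        have : ∀ᶠ y in 𝓝 p, y ∈ ({x : ℝ | γ • ι x = ι x} \ {p})ᶜ :=
          hc.isOpen_compl.mem_nhds (by simp)
        filter_upwards [hγ, this.filter_mono hl] with y hy hy2 hyp hfix
        exact hy2 ⟨by rw [mem_ofPred_eq, hy, hfix], hyp⟩
    have side : ∀ (p : ℝ) (s : Set ℝ), IsOpen s → Ger G ι (𝓝[s] p) (φ w) →
        ∀ᶠ y in 𝓝[s] p, y ≠ p → y ∉ D := by
      intro p s hs hg
      rcases loc _ hg p nhdsWithin_le_nhds with h | h
      · rw [eventually_nhdsWithin_iff] at h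
        have h2 := h.eventually_nhds
        filter_upwards [h2.filter_mono nhdsWithin_le_nhds, self_mem_nhdsWithin] with y hy hys _ hD
        apply hD.2
        filter_upwards [hy, hs.mem_nhds hys] with z hz hzs using hz hzs
      · filter_upwards [h] with y hy hyp hD using hy hyp hD.1
    have iso : ∀ p, ∀ᶠ y in 𝓝[≠] p, y ∉ D := by
      intro p
      rw [← nhdsLT_sup_nhdsGT, eventually_sup]
      constructor
      · obtain ⟨γ, hγ⟩ := (hφ w).2.2.1 p
        filter_upwards [side p (Iio p) isOpen_Iio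
          ⟨γ, hγ.filter_mono (nhdsWithin_mono _ Iio_subset_Iic_self)⟩, self_mem_nhdsWithin]
          with y hy hyp using hy (ne_of_lt hyp)
      · obtain ⟨γ, hγ⟩ := (hφ w).2.1 p
        filter_upwards [side p (Ioi p) isOpen_Ioi
          ⟨γ, hγ.filter_mono (nhdsWithin_mono _ Ioi_subset_Ici_self)⟩, self_mem_nhdsWithin]
          with y hy hyp using hy (ne_of_gt hyp)
    have ends : ∀ l : Filter ℝ, Tr l (φ w) → (∀ s ∈ l, interior s ∈ l) → ∀ᶠ y in l, y ∉ D := by
      rintro l ⟨s, hs⟩ hl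
      filter_upwards [hl _ hs] with y hy hD
      apply hD.2
      have h1 : φ w y = y + s := (interior_subset hy : y ∈ {x | φ w x = x + s})
      have h2 : s = 0 := by linarith [hD.1]
      filter_upwards [mem_interior_iff_mem_nhds.1 hy] with z hz
      rw [hz, h2, add_zero]
    obtain ⟨b, hb⟩ := eventually_atTop.1 (ends atTop (hφ w).2.2.2.2.1 (by
      intro s hs
      obtain ⟨c, hc⟩ := eventually_atTop.1 hs
      filter_upwards [eventually_gt_atTop c] with y hy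
      exact mem_interior_iff_mem_nhds.2 (mem_of_superset (Ici_mem_nhds hy) fun z hz => hc z hz)))
    obtain ⟨a, ha⟩ := eventually_atBot.1 (ends atBot (hφ w).2.2.2.2.2 (by
      intro s hs
      obtain ⟨c, hc⟩ := eventually_atBot.1 hs
      filter_upwards [eventually_lt_atBot c] with y hy
      exact mem_interior_iff_mem_nhds.2 (mem_of_superset (Iic_mem_nhds hy) fun z hz => hc z hz)))
    by_contra hinf
    have hsub : D ⊆ Icc a b := fun x hx =>
      ⟨by by_contra h; exact ha x (not_le.1 h).le hx, by by_contra h; exact hb x (not_le.1 h).le hx⟩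
    obtain ⟨p, -, hp⟩ := Set.Infinite.exists_accPt_of_subset_isCompact hinf isCompact_Icc hsub
    rw [accPt_iff_frequently_nhdsNE] at hp
    exact hp (iso p)
  · have side : ∀ s : Set ℝ, p ∈ s → (∀ k, Tendsto (φ k) (𝓝[s] p) (𝓝[s] p)) →
        (∀ k, Ger G ι (𝓝[s] p) (φ k)) → ∀ᶠ y in 𝓝[s] p, φ w y = y := by
      intro s hs ht hg
      obtain ⟨ψ, hψ⟩ := germ_hom φ _ ht hg
      have h1 := M.metab p ψ (fun k => by
        have := (hψ k).self_of_nhdsWithin hs
        rwa [hp k] at this) w hw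
      filter_upwards [hψ w] with y hy
      rw [h1, one_smul] at hy
      exact (M.inj hy).symm
    rw [← nhdsLE_sup_nhdsGE, eventually_sup]
    constructor
    · refine side _ self_mem_Iic (fun k => ?_) fun k => (hφ k).2.2.1 p
      have := tendsto_left (mono k) p
      rwa [hp k] at this
    · refine side _ self_mem_Ici (fun k => ?_) fun k => (hφ k).2.1 p
      have := tendsto_right (mono k) p
      rwa [hp k] at this

end Pool.Agent.H610Z.C2
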